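import Mathlib

set_option autoImplicit false

/-!
# The partition of unity in the levels
-/

open Set Filter Topology Real

namespace Pool.Agent.L7h99.LS

/-- The angle. -/
noncomputable def ang (t : ℝ) : ℝ :=
  π / 2 * (Real.smoothTransition t + Real.smoothTransition (-t))

theorem ang_contDiff : ContDiff ℝ 1 ang := by
  unfold ang
  have h : ContDiff ℝ 1 Real.smoothTransition := Real.smoothTransition.contDiff (n := 1)
  exact contDiff_const.mul (h.add (h.comp contDiff_neg))

theorem ang_one {t : ℝ} (ht : 1 ≤ |t|) : ang t = π / 2 := by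
  unfold ang
  rcases le_abs.1 ht with h | h
  · rw [Real.smoothTransition.one_of_one_le h,
      Real.smoothTransition.zero_of_nonpos (by linarith)]
    ring
  · rw [Real.smoothTransition.one_of_one_le h,
      Real.smoothTransition.zero_of_nonpos (by linarith)]
    ring

theorem ang_le (t : ℝ) : ang t ≤ π / 2 := by
  unfold ang
  have h : Real.smoothTransition t + Real.smoothTransition (-t) ≤ 1 := by
    rcases le_total 0 t with h | h
    · rw [Real.smoothTransition.zero_of_nonpos (x := -t) (by linarith)]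
      linarith [Real.smoothTransition.le_one t]
    · rw [Real.smoothTransition.zero_of_nonpos (x := t) h]
      linarith [Real.smoothTransition.le_one (-t)]
  have := Real.pi_pos
  nlinarith

theorem ang_nonneg (t : ℝ) : 0 ≤ ang t := by
  unfold ang
  have := Real.smoothTransition.nonneg t
  have := Real.smoothTransition.nonneg (-t)
  positivity

theorem ang_diff (t : ℝ) : HasDerivAt ang (deriv ang t) t :=
  ((ang_contDiff.differentiable one_ne_zero) t).hasDerivAt

theorem dang_cont : Continuous (deriv ang) := ang_contDiff.continuous_deriv le_rfl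

theorem dang_zero {t : ℝ} (ht : 1 ≤ |t|) : deriv ang t = 0 := by
  have : IsLocalMax ang t := Eventually.of_forall fun s => by
    rw [ang_one ht]; exact ang_le s
  exact this.deriv_eq_zero

theorem dang_bdd : ∃ C : ℝ, 0 ≤ C ∧ ∀ t, |deriv ang t| ≤ C := by
  obtain ⟨C, hC⟩ := (isCompact_Icc (a := (-1:ℝ)) (b := 1)).exists_bound_of_continuousOn
    dang_cont.continuousOn
  refine ⟨max C 0, le_max_right _ _, fun t => ?_⟩
  by_cases h : |t| ≤ 1
  · have := hC t (abs_le.1 h)
    rw [Real.norm_eq_abs] at this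
    exact this.trans (le_max_left _ _)
  · rw [dang_zero (not_le.1 h).le, abs_zero]
    exact le_max_right _ _

theorem st_compl (x : ℝ) : Real.smoothTransition (1 - x) = 1 - Real.smoothTransition x := by
  unfold Real.smoothTransition
  have h1 := Real.smoothTransition.pos_denom x
  rw [sub_sub_cancel]
  rw [add_comm (expNegInvGlue (1 - x)), eq_sub_iff_add_eq, ← add_div, div_eq_one_iff_eq h1.ne']
  ring

theorem ang_shift {t : ℝ} (h0 : 0 ≤ t) (h1 : t ≤ 1) : ang (t - 1) = π / 2 - ang t := by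
  unfold ang
  rw [Real.smoothTransition.zero_of_nonpos (x := t - 1) (by linarith),
    Real.smoothTransition.zero_of_nonpos (x := -t) (by linarith), neg_sub, st_compl]
  ring

theorem dang_shift {t : ℝ} (h0 : 0 ≤ t) (h1 : t ≤ 1) : deriv ang (t - 1) = -deriv ang t := by
  have hopen : ∀ s ∈ Ioo (0:ℝ) 1, deriv ang (s - 1) = -deriv ang s := by
    intro s hs
    have h2 : HasDerivAt (fun t => ang (t - 1)) (deriv ang (s - 1)) s := by
      have := (ang_diff (s - 1)).comp s ((hasDerivAt_id s).sub_const 1)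
      rw [mul_one] at this
      exact this
    have h3 : HasDerivAt (fun t => π / 2 - ang t) (-deriv ang s) s := (ang_diff s).const_sub _
    have h4 : (fun t => ang (t - 1)) =ᶠ[𝓝 s] fun t => π / 2 - ang t := by
      filter_upwards [Ioo_mem_nhds hs.1 hs.2] with r hr
      exact ang_shift hr.1.le hr.2.le
    exact h2.unique (h3.congr_of_eventuallyEq h4)
  have hc1 : Continuous fun t => deriv ang (t - 1) := dang_cont.comp (by fun_prop)
  have hc2 : Continuous fun t => -deriv ang t := dang_cont.neg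
  have hcl : IsClosed {t | deriv ang (t - 1) = -deriv ang t} := isClosed_eq hc1 hc2
  have hsub : closure (Ioo (0:ℝ) 1) ⊆ {t | deriv ang (t - 1) = -deriv ang t} :=
    closure_minimal hopen hcl
  rw [closure_Ioo (by norm_num)] at hsub
  exact hsub ⟨h0, h1⟩

/-- The window function number `w` of the density level. -/
noncomputable def win_fn (ω c : ℝ) (w : ℕ) (r : ℝ) : ℝ :=
  if 0 < r then Real.cos (ang (Real.log r / ω - c + w)) else 0

theorem win_fn_zero {ω c : ℝ} {w : ℕ} {r : ℝ} (h : 1 ≤ |Real.log r / ω - c + w|) :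
    win_fn ω c w r = 0 := by
  unfold win_fn
  split_ifs
  · rw [ang_one h, Real.cos_pi_div_two]
  · rfl

theorem win_fn_nonpos {ω c : ℝ} {w : ℕ} {r : ℝ} (h : r ≤ 0) : win_fn ω c w r = 0 := by
  unfold win_fn
  rw [if_neg (not_lt.2 h)]

theorem win_fn_small {ω c : ℝ} (hω : 0 < ω) {w : ℕ} {r : ℝ}
    (h : r < Real.exp (ω * (c - w - 1))) : win_fn ω c w r = 0 := by
  rcases le_or_gt r 0 with h0 | h0
  · exact win_fn_nonpos h0
  · refine win_fn_zero ?_
    have h1 : Real.log r < ω * (c - w - 1) := (Real.log_lt_iff_lt_exp h0).2 h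
    have h2 : Real.log r / ω < c - w - 1 := by
      rw [div_lt_iff₀ hω]; linarith
    rw [abs_of_neg (by linarith)]
    linarith

theorem win_fn_deriv {ω c : ℝ} {w : ℕ} {r : ℝ} (h : 0 < r) :
    HasDerivAt (win_fn ω c w) (-Real.sin (ang (Real.log r / ω - c + w)) *
      (deriv ang (Real.log r / ω - c + w) * (r⁻¹ / ω))) r := by
  have h1 : HasDerivAt (fun r => Real.log r / ω - c + w) (r⁻¹ / ω) r :=
    (((Real.hasDerivAt_log h.ne').div_const ω).sub_const c).add_const _
  have h2 := ((ang_diff (Real.log r / ω - c + w)).comp r h1).cos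
  refine h2.congr_of_eventuallyEq ?_
  filter_upwards [lt_mem_nhds h] with s hs
  unfold win_fn
  rw [if_pos hs]
  rfl

theorem win_fn_contDiff {ω : ℝ} (c : ℝ) (hω : 0 < ω) (w : ℕ) : ContDiff ℝ 1 (win_fn ω c w) := by
  rw [contDiff_iff_contDiffAt]
  intro r
  rcases le_or_gt r 0 with h0 | h0
  · have : win_fn ω c w =ᶠ[𝓝 r] fun _ => 0 := by
      filter_upwards [gt_mem_nhds (h0.trans_lt (Real.exp_pos (ω * (c - w - 1))))] with s hs
      exact win_fn_small hω hs
    exact contDiffAt_const.congr_of_eventuallyEq this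
  · have : win_fn ω c w =ᶠ[𝓝 r] fun s => Real.cos (ang (Real.log s / ω - c + w)) := by
      filter_upwards [lt_mem_nhds h0] with s hs
      unfold win_fn
      rw [if_pos hs]
    refine ContDiffAt.congr_of_eventuallyEq ?_ this
    have h1 : ContDiffAt ℝ 1 (fun s => Real.log s / ω - c + w) r :=
      (((Real.contDiffAt_log.2 h0.ne').div_const ω).sub contDiffAt_const).add contDiffAt_const
    exact Real.contDiff_cos.contDiffAt.comp r (ang_contDiff.contDiffAt.comp r h1)

theorem win_fn_deriv_zero {ω : ℝ} (c : ℝ) (hω : 0 < ω) (w : ℕ) {r : ℝ} (h : r ≤ 0) :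
    HasDerivAt (win_fn ω c w) 0 r := by
  have : win_fn ω c w =ᶠ[𝓝 r] fun _ => 0 := by
    filter_upwards [gt_mem_nhds (h.trans_lt (Real.exp_pos (ω * (c - w - 1))))] with s hs
    exact win_fn_small hω hs
  exact (hasDerivAt_const r (0:ℝ)).congr_of_eventuallyEq this

theorem sum_two (g : ℕ → ℝ) (p : ℕ) (hg : ∀ w, w ≠ p → w ≠ p + 1 → g w = 0) (M : ℕ) :
    ∑ w ∈ Finset.range M, g w = (if p < M then g p else 0) + (if p + 1 < M then g (p + 1) else 0) := by
  have h1 : ∀ w, g w = (if w = p then g p else 0) + (if w = p + 1 then g (p + 1) else 0) := by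
    intro w
    by_cases h : w = p
    · subst h; simp
    · by_cases h' : w = p + 1
      · subst h'; simp
      · simp [h, h', hg w h h']
  rw [Finset.sum_congr rfl fun w _ => h1 w, Finset.sum_add_distrib, Finset.sum_ite_eq',
    Finset.sum_ite_eq']
  simp only [Finset.mem_range]

/-- The one-dimensional inequality behind the localization. -/
theorem ims {ω C : ℝ} (hω : 0 < ω) (hC : ∀ t, |deriv ang t| ≤ C) {A B : ℝ}
    (hB : 0 ≤ B) (hAB : B * ω ≤ 4 * A) {t₀ : ℝ} (ht : 0 ≤ t₀) (M : ℕ) :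
    ∑ w ∈ Finset.range M, (Real.cos (ang (w - t₀)) ^ 2 * A -
      Real.cos (ang (w - t₀)) * Real.sin (ang (w - t₀)) * deriv ang (w - t₀) * B +
        Real.sin (ang (w - t₀)) ^ 2 * deriv ang (w - t₀) ^ 2 * B / ω) ≤
      A * (1 + 4 * C ^ 2 / ω ^ 2) := by
  set g : ℕ → ℝ := fun w => (Real.cos (ang (w - t₀)) ^ 2 * A -
      Real.cos (ang (w - t₀)) * Real.sin (ang (w - t₀)) * deriv ang (w - t₀) * B +
        Real.sin (ang (w - t₀)) ^ 2 * deriv ang (w - t₀) ^ 2 * B / ω) with hg
  set p := ⌊t₀⌋₊ with hp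
  have hp1 : (p : ℝ) ≤ t₀ := Nat.floor_le ht
  have hp2 : t₀ < p + 1 := Nat.lt_floor_add_one t₀
  have hA : 0 ≤ A := by nlinarith
  have hz : ∀ w, w ≠ p → w ≠ p + 1 → g w = 0 := by
    intro w h1 h2
    have h3 : 1 ≤ |(w : ℝ) - t₀| := by
      rcases lt_or_gt_of_ne h1 with h | h
      · have : (w : ℝ) + 1 ≤ p := by exact_mod_cast h
        rw [abs_of_neg (by linarith)]
        linarith
      · have h4 : p + 2 ≤ w := by omega
        have : (p : ℝ) + 2 ≤ w := by exact_mod_cast h4
        rw [abs_of_pos (by linarith)]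
        linarith
    simp only [hg]
    rw [ang_one h3, dang_zero h3, Real.cos_pi_div_two]
    ring
  have hnn : ∀ w, 0 ≤ g w := by
    intro w
    simp only [hg]
    set x := Real.cos (ang (w - t₀))
    set y := Real.sin (ang (w - t₀)) * deriv ang (w - t₀)
    have e : x ^ 2 * A - x * Real.sin (ang (w - t₀)) * deriv ang (w - t₀) * B +
        Real.sin (ang (w - t₀)) ^ 2 * deriv ang (w - t₀) ^ 2 * B / ω =
        x ^ 2 * (A - B * ω / 4) + B / ω * (x * ω / 2 - y) ^ 2 := by
      simp only [y]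
      field_simp
      ring
    rw [e]
    have : 0 ≤ A - B * ω / 4 := by linarith
    positivity
  rw [sum_two g p hz M]
  have hle : (if p < M then g p else 0) + (if p + 1 < M then g (p + 1) else 0) ≤
      g p + g (p + 1) := by
    have := hnn p
    have := hnn (p + 1)
    split_ifs <;> linarith
  refine hle.trans ?_
  set t : ℝ := (p : ℝ) + 1 - t₀ with htd
  have ht0 : 0 ≤ t := by linarith
  have ht1 : t ≤ 1 := by linarith
  have e1 : (p : ℝ) - t₀ = t - 1 := by rw [htd]; ring
  have e2 : ((p + 1 : ℕ) : ℝ) - t₀ = t := by rw [htd]; push_cast; ring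
  simp only [hg]
  rw [e1, e2, ang_shift ht0 ht1, dang_shift ht0 ht1, Real.cos_pi_div_two_sub,
    Real.sin_pi_div_two_sub]
  have hsc := Real.sin_sq_add_cos_sq (ang t)
  set x := Real.cos (ang t)
  set y := Real.sin (ang t)
  set D := deriv ang t
  have e3 : y ^ 2 * A - y * x * -D * B + x ^ 2 * (-D) ^ 2 * B / ω +
      (x ^ 2 * A - x * y * D * B + y ^ 2 * D ^ 2 * B / ω) =
      (y ^ 2 + x ^ 2) * (A + D ^ 2 * B / ω) := by
    ring
  rw [e3, hsc, one_mul]
  have hD : D ^ 2 ≤ C ^ 2 := by
    rw [← sq_abs D]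
    exact pow_le_pow_left₀ (abs_nonneg _) (hC t) 2
  have h5 : D ^ 2 * B / ω ≤ C ^ 2 * (4 * A / ω) / ω := by
    refine div_le_div_of_nonneg_right ?_ hω.le
    refine mul_le_mul hD ?_ hB (sq_nonneg _)
    rw [le_div_iff₀ hω]
    exact hAB
  calc A + D ^ 2 * B / ω ≤ A + C ^ 2 * (4 * A / ω) / ω := by linarith
    _ = _ := by field_simp

theorem mass_sum {ω c : ℝ} (hω : 0 < ω) {r : ℝ} (hr : 0 < r) (hrc : Real.log r ≤ ω * c)
    (M : ℕ) :
    (∑ w ∈ Finset.range M, win_fn ω c w r ^ 2 = 1 ∨
      (0 ≤ ∑ w ∈ Finset.range M, win_fn ω c w r ^ 2 ∧ Real.log r ≤ ω * (c - (M - 1 : ℕ)))) := by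
  set t₀ : ℝ := c - Real.log r / ω with ht0
  have ht : 0 ≤ t₀ := by
    have : Real.log r / ω ≤ c := by rw [div_le_iff₀ hω]; linarith
    linarith
  set p := ⌊t₀⌋₊ with hp
  have hp1 : (p : ℝ) ≤ t₀ := Nat.floor_le ht
  have hp2 : t₀ < p + 1 := Nat.lt_floor_add_one t₀
  have hwf : ∀ w : ℕ, win_fn ω c w r = Real.cos (ang (w - t₀)) := by
    intro w
    unfold win_fn
    rw [if_pos hr, ht0]
    congr 2
    ring
  by_cases hpM : p + 1 < M
  · left
    have hz : ∀ w, w ≠ p → w ≠ p + 1 → win_fn ω c w r ^ 2 = 0 := by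
      intro w h1 h2
      have h3 : 1 ≤ |(w : ℝ) - t₀| := by
        rcases lt_or_gt_of_ne h1 with h | h
        · have : (w : ℝ) + 1 ≤ p := by exact_mod_cast h
          rw [abs_of_neg (by linarith)]
          linarith
        · have h4 : p + 2 ≤ w := by omega
          have : (p : ℝ) + 2 ≤ w := by exact_mod_cast h4
          rw [abs_of_pos (by linarith)]
          linarith
      rw [hwf, ang_one h3, Real.cos_pi_div_two]
      ring
    rw [sum_two _ p hz M, if_pos (by omega), if_pos hpM, hwf, hwf]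
    set t : ℝ := (p : ℝ) + 1 - t₀ with htd
    have e1 : (p : ℝ) - t₀ = t - 1 := by rw [htd]; ring
    have e2 : ((p + 1 : ℕ) : ℝ) - t₀ = t := by rw [htd]; push_cast; ring
    rw [e1, e2, ang_shift (by linarith) (by linarith), Real.cos_pi_div_two_sub]
    exact Real.sin_sq_add_cos_sq _
  · right
    refine ⟨Finset.sum_nonneg fun w _ => sq_nonneg _, ?_⟩
    have h1 : M - 1 ≤ p := by omega
    have h2 : ((M - 1 : ℕ) : ℝ) ≤ t₀ := le_trans (by exact_mod_cast h1) hp1
    have h3 : Real.log r / ω ≤ c - (M - 1 : ℕ) := by linarith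
    rw [div_le_iff₀ hω] at h3
    linarith

/-- The comparison of the masses. -/
theorem mass_cmp {ω c δ : ℝ} (hω : 0 < ω) (hδ : 0 < δ) (hωδ : δ * ω ≤ 1) {r : ℝ} (hr : 0 < r)
    (hrc : Real.log r ≤ ω * c) (M : ℕ) (hM : 1 ≤ M) :
    -Real.exp (δ * (ω * (c - (M - 1 : ℕ)))) ≤
      ∑ w ∈ Finset.range M, Real.exp (δ * (ω * (c - w))) * (5 * win_fn ω c w r ^ 2 -
        (if |Real.log r / ω - c + w| < 1 then 1 else 0)) := by
  set t₀ : ℝ := c - Real.log r / ω with ht0
  have ht : 0 ≤ t₀ := by
    have : Real.log r / ω ≤ c := by rw [div_le_iff₀ hω]; linarith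
    linarith
  set p := ⌊t₀⌋₊ with hp
  have hp1 : (p : ℝ) ≤ t₀ := Nat.floor_le ht
  have hp2 : t₀ < p + 1 := Nat.lt_floor_add_one t₀
  have harg : ∀ w : ℕ, Real.log r / ω - c + w = w - t₀ := fun w => by rw [ht0]; ring
  have hwf : ∀ w : ℕ, win_fn ω c w r = Real.cos (ang (w - t₀)) := by
    intro w
    unfold win_fn
    rw [if_pos hr, harg]
  set a : ℕ → ℝ := fun w => Real.exp (δ * (ω * (c - w))) with ha
  set g : ℕ → ℝ := fun w => a w * (5 * win_fn ω c w r ^ 2 -
        (if |Real.log r / ω - c + w| < 1 then 1 else 0)) with hg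
  have hz : ∀ w, w ≠ p → w ≠ p + 1 → g w = 0 := by
    intro w h1 h2
    have h3 : 1 ≤ |(w : ℝ) - t₀| := by
      rcases lt_or_gt_of_ne h1 with h | h
      · have : (w : ℝ) + 1 ≤ p := by exact_mod_cast h
        rw [abs_of_neg (by linarith)]
        linarith
      · have h4 : p + 2 ≤ w := by omega
        have : (p : ℝ) + 2 ≤ w := by exact_mod_cast h4
        rw [abs_of_pos (by linarith)]
        linarith
    simp only [hg]
    rw [hwf, harg, ang_one h3, Real.cos_pi_div_two, if_neg (not_lt.2 h3)]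
    ring
  have hlow : ∀ w, -a w ≤ g w := by
    intro w
    simp only [hg]
    have h1 : (if |Real.log r / ω - c + w| < 1 then (1:ℝ) else 0) ≤ 1 := by
      split_ifs <;> norm_num
    have h2 : 0 ≤ win_fn ω c w r ^ 2 := sq_nonneg _
    have h3 : 0 < a w := Real.exp_pos _
    nlinarith
  show -a (M - 1) ≤ ∑ w ∈ Finset.range M, g w
  have hapos : ∀ w, 0 < a w := fun w => Real.exp_pos _
  rw [sum_two g p hz M]
  by_cases hpM : p + 1 < M
  · rw [if_pos (by omega), if_pos hpM]
    have e : a p = Real.exp (δ * ω) * a (p + 1) := by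
      simp only [ha]
      rw [← Real.exp_add]
      congr 1
      push_cast
      ring
    have he : Real.exp (δ * ω) ≤ 3 := by
      have := Real.exp_one_lt_d9
      have := Real.exp_le_exp.2 hωδ
      linarith
    have he1 : 1 ≤ Real.exp (δ * ω) := Real.one_le_exp (by positivity)
    have hcs : win_fn ω c p r ^ 2 + win_fn ω c (p + 1 : ℕ) r ^ 2 = 1 := by
      rw [hwf, hwf]
      set t : ℝ := (p : ℝ) + 1 - t₀ with htd
      have e1 : (p : ℝ) - t₀ = t - 1 := by rw [htd]; ring
      have e2 : ((p + 1 : ℕ) : ℝ) - t₀ = t := by rw [htd]; push_cast; ring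
      rw [e1, e2, ang_shift (by linarith) (by linarith), Real.cos_pi_div_two_sub]
      exact Real.sin_sq_add_cos_sq _
    have hg1 : a p * (5 * win_fn ω c p r ^ 2 - 1) ≤ g p := by
      simp only [hg]
      refine mul_le_mul_of_nonneg_left ?_ (hapos p).le
      split_ifs <;> linarith
    have hg2 : a (p + 1) * (5 * win_fn ω c (p + 1 : ℕ) r ^ 2 - 1) ≤ g (p + 1) := by
      simp only [hg]
      refine mul_le_mul_of_nonneg_left ?_ (hapos _).le
      split_ifs <;> linarith
    have h1 := hapos (p + 1)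
    have h0 := (hapos (M - 1)).le
    set X := win_fn ω c p r ^ 2
    set Y := win_fn ω c (p + 1 : ℕ) r ^ 2
    have hX : 0 ≤ X := sq_nonneg _
    have h6 : 0 ≤ a p * (5 * X - 1) + a (p + 1) * (5 * Y - 1) := by
      rw [e]
      have : Real.exp (δ * ω) * a (p + 1) * (5 * X - 1) + a (p + 1) * (5 * Y - 1) =
          a (p + 1) * ((Real.exp (δ * ω) - 1) * (5 * X) + (5 * (X + Y) - 1 -
            Real.exp (δ * ω))) := by ring
      rw [this, hcs]
      refine mul_nonneg h1.le (add_nonneg (mul_nonneg (by linarith) (by linarith)) (by linarith))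
    linarith
  · rw [if_neg hpM, add_zero]
    by_cases hpM' : p < M
    · rw [if_pos hpM']
      have : p = M - 1 := by omega
      rw [← this]
      exact hlow p
    · rw [if_neg hpM']
      have := hapos (M - 1)
      linarith

end Pool.Agent.L7h99.LS
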