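import Pool.Agent.Helper717.LT.Defs

set_option autoImplicit false

/-!
# Lieb-Thirring inequality for few functions in high dimension: statements of the parts
-/

open MeasureTheory Set Filter Topology Real
open scoped ENNReal

namespace Pool.Agent.L7h99.LS

/-- The heat kernel of `ℝ^d` at time `τ`. -/
noncomputable def G {d : ℕ} (τ : ℝ) (z : Fin d → ℝ) : ℝ :=
  ∏ i, ((√(4 * π * τ))⁻¹ * Real.exp (-(z i ^ 2 / (4 * τ))))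

/-- The semigroup property and the mass of the heat kernel. -/
def P_SEMI : Prop := ∀ (d : ℕ) (τ σ : ℝ), 0 < τ → 0 < σ → ∀ x y : Fin d → ℝ,
  (∫⁻ z : Fin d → ℝ, ENNReal.ofReal (G τ (x - z)) * ENNReal.ofReal (G σ (z - y)) =
    ENNReal.ofReal (G (τ + σ) (x - y))) ∧
  ∫⁻ z : Fin d → ℝ, ENNReal.ofReal (G τ (x - z)) = 1

/-- Lower bound for the form of the heat semigroup at small times. -/
def P_LOW : Prop := ∀ (d : ℕ) (τ : ℝ), 0 < τ → ∀ g : (Fin d → ℝ) → ℝ, ContDiff ℝ 1 g →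
  HasCompactSupport g →
  (∫ x, g x ^ 2) - τ * ∫ x, ∑ k, LTd.pd k g x ^ 2 ≤ ∫ x, ∫ y, g x * (G τ (x - y) * g y)

/-- The kinetic inequality with the constant `K` for families with Gram matrix at most one and
mass at most `N₀`. -/
def Core (d : ℕ) (K N₀ : ℝ) : Prop :=
  ∀ (n : ℕ) (F : Fin n → (Fin d → ℝ) → ℝ), (∀ i, ContDiff ℝ 1 (F i)) →
    (∀ i, HasCompactSupport (F i)) →
    (∀ v : Fin n → ℝ, ∫ x, (∑ i, v i * F i x) ^ 2 ≤ ∑ i, v i ^ 2) →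
    ∫ x, ∑ i, F i x ^ 2 ≤ N₀ →
    K * ∫ x, (∑ i, F i x ^ 2) ^ (1 + 2 / (d : ℝ)) ≤ ∫ x, ∑ k, ∑ i, LTd.pd k (F i) x ^ 2

/-- The passage to orthonormal systems of complex functions in `H¹` (see
`Helper717/LT/P_H_real.lean` and `P_final_thm.lean`). -/
def P_WRAP : Prop := ∀ (d : ℕ) (K N₀ : ℝ), 1 ≤ d → 0 < K → Core d K N₀ →
  ∀ (N : ℕ) (u : Fin N → (Fin d → ℝ) → ℂ) (g : Fin N → Fin d → (Fin d → ℝ) → ℂ),
    (N : ℝ) ≤ N₀ → (∀ i, LTd.WGradC (u i) (g i)) →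
    (∀ i j, ∫ x, (starRingEnd ℂ) (u i x) * u j x = if i = j then 1 else 0) →
    Integrable (fun x => (∑ i, ‖u i x‖ ^ 2) ^ (1 + 2 / (d : ℝ))) ∧
    K * ∫ x, (∑ i, ‖u i x‖ ^ 2) ^ (1 + 2 / (d : ℝ)) ≤ ∑ i, ∑ k, ∫ x, ‖g i k x‖ ^ 2

/-- The choice of the parameters. -/
def P_NUM : Prop := ∀ C : ℝ, 0 ≤ C → ∃ c : ℝ, 0 < c ∧ ∃ d₀ : ℕ, 4 ≤ d₀ ∧ ∀ d : ℕ, d₀ ≤ d →
  ∀ N : ℝ, 0 < N → N ≤ (c * d / Real.log d) ^ ((d : ℝ) / 2) → ∃ (j : ℕ) (ε : ℝ), 0 ≤ ε ∧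
    6 + 3 / 2 * d * ε ≤
      ((d : ℝ) / 2 * Real.log (2 ^ j * Real.exp 1 / 4) - Real.log N - √d) / 2 ^ j ∧
    LTd.Kcl d * (1 + C / d) ≤ 2 * π * d / Real.exp 1 * (1 + ε)

end Pool.Agent.L7h99.LS
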