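import Mathlib

set_option autoImplicit false

/-!
# Cyclic chains

`T l X μ w κ = tr (w κ)^(2^l)` for a weight `w` and a nonnegative kernel `κ`.
-/

open MeasureTheory Set Filter
open scoped ENNReal

namespace Pool.Agent.L7h99.LS

/-- `tr (w κ)^(2^l)`, as an iterated integral over `X^(2^l)`. -/
noncomputable def T : ℕ → (X : Type) → (m : MeasurableSpace X) → Measure X → (X → ℝ≥0∞) →
    (X → X → ℝ≥0∞) → ℝ≥0∞
  | 0, _, _, μ, w, κ => ∫⁻ x, w x * κ x x ∂μ
  | l + 1, X, m, μ, w, κ => T l (X × X) (m.prod m) (μ.prod μ)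
      (fun p => w p.1 * κ p.1 p.2 * w p.2) (fun p q => κ p.2 q.1)

theorem two_mul_le (a b : ℝ≥0∞) : 2 * (a * b) ≤ a ^ 2 + b ^ 2 := by
  rcases eq_or_ne a ∞ with rfl | ha
  · simp
  rcases eq_or_ne b ∞ with rfl | hb
  · simp
  lift a to NNReal using ha
  lift b to NNReal using hb
  have h := two_mul_le_add_sq a b
  rw [mul_assoc] at h
  exact_mod_cast h

theorem T_amgm (l : ℕ) : ∀ (X : Type) (m : MeasurableSpace X) (μ : Measure X)
    (u v w : X → ℝ≥0∞) (κ : X → X → ℝ≥0∞), Measurable u → Measurable v → Measurable w →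
    Measurable (Function.uncurry κ) →
    2 * T l X m μ (fun x => u x * v x * w x) κ ≤
      T l X m μ (fun x => u x ^ 2 * w x) κ + T l X m μ (fun x => v x ^ 2 * w x) κ := by
  induction l with
  | zero =>
    intro X m μ u v w κ hu hv hw hκ
    have hk : Measurable fun x => κ x x := hκ.comp (measurable_id.prodMk measurable_id)
    simp only [T]
    have m1 : Measurable fun x => u x * v x * w x * κ x x := ((hu.mul hv).mul hw).mul hk
    have m2 : Measurable fun x => u x ^ 2 * w x * κ x x := ((hu.pow_const 2).mul hw).mul hk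
    rw [← lintegral_const_mul _ m1, ← lintegral_add_left m2]
    refine lintegral_mono fun x => ?_
    have h := two_mul_le (u x) (v x)
    calc 2 * (u x * v x * w x * κ x x) = 2 * (u x * v x) * (w x * κ x x) := by ring
      _ ≤ (u x ^ 2 + v x ^ 2) * (w x * κ x x) := by gcongr
      _ = _ := by ring
  | succ l ih =>
    intro X m μ u v w κ hu hv hw hκ
    have h1 : Measurable fun p : X × X => u p.1 * u p.2 :=
      (hu.comp measurable_fst).mul (hu.comp measurable_snd)
    have h2 : Measurable fun p : X × X => v p.1 * v p.2 :=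
      (hv.comp measurable_fst).mul (hv.comp measurable_snd)
    have h3 : Measurable fun p : X × X => w p.1 * κ p.1 p.2 * w p.2 :=
      ((hw.comp measurable_fst).mul hκ).mul (hw.comp measurable_snd)
    have h4 : Measurable (Function.uncurry fun p q : X × X => κ p.2 q.1) :=
      hκ.comp ((measurable_snd.comp measurable_fst).prodMk (measurable_fst.comp measurable_snd))
    have h := ih (X × X) (m.prod m) (μ.prod μ) _ _ _ _ h1 h2 h3 h4
    simp only [T]
    refine le_trans (le_of_eq ?_) (h.trans (le_of_eq ?_))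
    · congr 2
      funext p
      ring
    · congr 1
      · congr 1
        funext p
        ring
      · congr 1
        funext p
        ring

theorem T_left (l : ℕ) : ∀ (X : Type) (m : MeasurableSpace X) (μ : Measure X)
    (w c : X → ℝ≥0∞) (κ : X → X → ℝ≥0∞),
    T l X m μ w (fun x y => c x * κ x y) = T l X m μ (fun x => w x * c x) κ := by
  induction l with
  | zero =>
    intro X m μ w c κ
    simp only [T, mul_assoc]
  | succ l ih =>
    intro X m μ w c κ
    simp only [T]
    rw [ih (X × X) (m.prod m) (μ.prod μ) _ (fun p => c p.2) (fun p q => κ p.2 q.1)]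
    congr 1
    funext p
    ring

theorem T_right (l : ℕ) : ∀ (X : Type) (m : MeasurableSpace X) (μ : Measure X)
    (w c : X → ℝ≥0∞) (κ : X → X → ℝ≥0∞),
    T l X m μ w (fun x y => κ x y * c y) = T l X m μ (fun x => w x * c x) κ := by
  induction l with
  | zero =>
    intro X m μ w c κ
    simp only [T]
    congr 1
    funext x
    ring
  | succ l ih =>
    intro X m μ w c κ
    simp only [T]
    rw [ih (X × X) (m.prod m) (μ.prod μ) _ (fun p => c p.1) (fun p q => κ p.2 q.1)]
    congr 1
    funext p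
    ring

theorem T_equiv (l : ℕ) : ∀ (X Y : Type) (m : MeasurableSpace X) (m' : MeasurableSpace Y)
    (μ : Measure X) (ν : Measure Y) [SFinite μ] [SFinite ν] (e : X ≃ᵐ Y)
    (_ : MeasurePreserving e μ ν) (w : Y → ℝ≥0∞) (κ : Y → Y → ℝ≥0∞),
    T l X m μ (fun x => w (e x)) (fun x y => κ (e x) (e y)) = T l Y m' ν w κ := by
  induction l with
  | zero =>
    intro X Y m m' μ ν _ _ e he w κ
    simp only [T]
    exact he.lintegral_comp_emb e.measurableEmbedding (fun y => w y * κ y y)
  | succ l ih =>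
    intro X Y m m' μ ν _ _ e he w κ
    simp only [T]
    exact ih (X × X) (Y × Y) (m.prod m) (m'.prod m') (μ.prod μ) (ν.prod ν)
      (e.prodCongr e) (he.prod he) (fun p => w p.1 * κ p.1 p.2 * w p.2) (fun p q => κ p.2 q.1)

/-- The rearrangement `((x, y), (x', y')) ↦ ((x, x'), (y, y'))`. -/
def swp (X Y : Type) [MeasurableSpace X] [MeasurableSpace Y] :
    (X × Y) × (X × Y) ≃ᵐ (X × X) × (Y × Y) where
  toFun z := ((z.1.1, z.2.1), (z.1.2, z.2.2))
  invFun z := ((z.1.1, z.2.1), (z.1.2, z.2.2))
  left_inv _ := rfl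
  right_inv _ := rfl
  measurable_toFun := by
    show Measurable fun z : (X × Y) × (X × Y) => ((z.1.1, z.2.1), (z.1.2, z.2.2))
    fun_prop
  measurable_invFun := by
    show Measurable fun z : (X × X) × (Y × Y) => ((z.1.1, z.2.1), (z.1.2, z.2.2))
    fun_prop

theorem swp_mp {X Y : Type} [MeasurableSpace X] [MeasurableSpace Y] (μ : Measure X)
    (ν : Measure Y) [SFinite μ] [SFinite ν] :
    MeasurePreserving (swp X Y) ((μ.prod ν).prod (μ.prod ν)) ((μ.prod μ).prod (ν.prod ν)) := by
  refine ⟨(swp X Y).measurable, ?_⟩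
  refine Measure.ext_of_lintegral _ fun f hf => ?_
  rw [lintegral_map_equiv]
  have hf' : Measurable fun z => f (swp X Y z) := hf.comp (swp X Y).measurable
  rw [lintegral_prod _ hf'.aemeasurable, lintegral_prod _ hf.aemeasurable]
  have h1 : ∀ z : X × Y, ∫⁻ z' : X × Y, f (swp X Y (z, z')) ∂(μ.prod ν) =
      ∫⁻ x', ∫⁻ y', f ((z.1, x'), (z.2, y')) ∂ν ∂μ := by
    intro z
    have mm : Measurable fun z' : X × Y => f (swp X Y (z, z')) :=
      hf'.comp (measurable_const.prodMk measurable_id)
    rw [lintegral_prod _ mm.aemeasurable]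
    rfl
  have h2 : ∀ p : X × X, ∫⁻ q : Y × Y, f (p, q) ∂(ν.prod ν) =
      ∫⁻ y, ∫⁻ y', f (p, (y, y')) ∂ν ∂ν := by
    intro p
    have mm : Measurable fun q : Y × Y => f (p, q) :=
      hf.comp (measurable_const.prodMk measurable_id)
    rw [lintegral_prod _ mm.aemeasurable]
  simp only [h1, h2]
  have m1 : Measurable fun z : X × Y => ∫⁻ x', ∫⁻ y', f ((z.1, x'), (z.2, y')) ∂ν ∂μ := by
    refine Measurable.lintegral_prod_right' (f := fun q : (X × Y) × X =>
      ∫⁻ y', f ((q.1.1, q.2), (q.1.2, y')) ∂ν) ?_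
    refine Measurable.lintegral_prod_right' (f := fun r : ((X × Y) × X) × Y =>
      f ((r.1.1.1, r.1.2), (r.1.1.2, r.2))) ?_
    fun_prop
  have m2 : Measurable fun p : X × X => ∫⁻ y, ∫⁻ y', f (p, (y, y')) ∂ν ∂ν := by
    refine Measurable.lintegral_prod_right' (f := fun q : (X × X) × Y =>
      ∫⁻ y', f (q.1, (q.2, y')) ∂ν) ?_
    refine Measurable.lintegral_prod_right' (f := fun r : ((X × X) × Y) × Y =>
      f (r.1.1, (r.1.2, r.2))) ?_
    fun_prop
  rw [lintegral_prod _ m1.aemeasurable, lintegral_prod _ m2.aemeasurable]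
  refine lintegral_congr fun x => ?_
  rw [lintegral_lintegral_swap]
  refine Measurable.aemeasurable ?_
  refine Measurable.lintegral_prod_right' (f := fun q : (Y × X) × Y =>
      f ((x, q.1.2), (q.1.1, q.2))) ?_
  fun_prop

theorem T_marg (l : ℕ) : ∀ (X Y : Type) (m : MeasurableSpace X) (m' : MeasurableSpace Y)
    (μ : Measure X) (ν : Measure Y) [SFinite μ] [SFinite ν] (a : X → ℝ≥0∞)
    (p : X → Y → ℝ≥0∞) (q : Y → X → ℝ≥0∞), Measurable a → Measurable (Function.uncurry p) →
    Measurable (Function.uncurry q) →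
    T l (X × Y) (m.prod m') (μ.prod ν) (fun z => a z.1 * p z.1 z.2) (fun z z' => q z.2 z'.1) =
      T l X m μ a (fun x x' => ∫⁻ y, p x y * q y x' ∂ν) := by
  induction l with
  | zero =>
    intro X Y m m' μ ν _ _ a p q ha hp hq
    simp only [T]
    have hp' : Measurable fun z : X × Y => p z.1 z.2 := hp
    have hq' : Measurable fun z : X × Y => q z.2 z.1 := hq.comp measurable_swap
    have h1 : Measurable fun z : X × Y => a z.1 * p z.1 z.2 * q z.2 z.1 :=
      ((ha.comp measurable_fst).mul hp').mul hq'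
    rw [lintegral_prod _ h1.aemeasurable]
    refine lintegral_congr fun x => ?_
    have h2 : Measurable fun y => p x y * q y x :=
      (hp'.comp (measurable_const.prodMk measurable_id)).mul
        (hq'.comp (measurable_const.prodMk measurable_id))
    rw [← lintegral_const_mul _ h2]
    refine lintegral_congr fun y => ?_
    ring
  | succ l ih =>
    intro X Y m m' μ ν _ _ a p q ha hp hq
    have hp' : Measurable fun z : X × Y => p z.1 z.2 := hp
    have hq' : Measurable fun z : Y × X => q z.1 z.2 := hq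
    have e1 := T_equiv l ((X × Y) × (X × Y)) ((X × X) × (Y × Y)) _ _
      ((μ.prod ν).prod (μ.prod ν)) ((μ.prod μ).prod (ν.prod ν)) (swp X Y) (swp_mp μ ν)
      (fun z => (a z.1.1 * a z.1.2) * (p z.1.1 z.2.1 * q z.2.1 z.1.2 * p z.1.2 z.2.2))
      (fun z z' => q z.2.2 z'.1.1)
    have e2 := ih (X × X) (Y × Y) (m.prod m) (m'.prod m') (μ.prod μ) (ν.prod ν)
      (fun z => a z.1 * a z.2) (fun z w => p z.1 w.1 * q w.1 z.2 * p z.2 w.2)
      (fun w z => q w.2 z.1) ((ha.comp measurable_fst).mul (ha.comp measurable_snd))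
      (((hp'.comp (by fun_prop : Measurable fun z : (X × X) × (Y × Y) => (z.1.1, z.2.1))).mul
        (hq'.comp (by fun_prop : Measurable fun z : (X × X) × (Y × Y) => (z.2.1, z.1.2)))).mul
        (hp'.comp (by fun_prop : Measurable fun z : (X × X) × (Y × Y) => (z.1.2, z.2.2))))
      (hq'.comp (by fun_prop : Measurable fun z : (Y × Y) × (X × X) => (z.1.2, z.2.1)))
    have e3 := T_left l (X × X) (m.prod m) (μ.prod μ) (fun z => a z.1 * a z.2)
      (fun z => ∫⁻ y, p z.1 y * q y z.2 ∂ν) (fun z z' => ∫⁻ y, p z.2 y * q y z'.1 ∂ν)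
    have hr : (fun (z z' : X × X) => ∫⁻ w : Y × Y, p z.1 w.1 * q w.1 z.2 * p z.2 w.2 *
        q w.2 z'.1 ∂(ν.prod ν)) = fun z z' => (∫⁻ y, p z.1 y * q y z.2 ∂ν) *
          ∫⁻ y, p z.2 y * q y z'.1 ∂ν := by
      funext z z'
      have k1 : Measurable fun y => p z.1 y * q y z.2 :=
        (hp'.comp (measurable_const.prodMk measurable_id)).mul
          (hq'.comp (measurable_id.prodMk measurable_const))
      have k2 : Measurable fun y => p z.2 y * q y z'.1 :=
        (hp'.comp (measurable_const.prodMk measurable_id)).mul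
          (hq'.comp (measurable_id.prodMk measurable_const))
      rw [← lintegral_prod_mul k1.aemeasurable k2.aemeasurable]
      refine lintegral_congr fun w => ?_
      ring
    simp only [T]
    rw [hr] at e2
    refine Eq.trans ?_ (e1.trans (e2.trans (e3.trans ?_)))
    · congr 1
      funext z
      show _ = (a z.1.1 * a z.2.1) * (p z.1.1 z.1.2 * q z.1.2 z.2.1 * p z.2.1 z.2.2)
      ring
    · congr 1
      funext z
      ring

theorem T_marg' (l : ℕ) : ∀ (X Y : Type) (m : MeasurableSpace X) (m' : MeasurableSpace Y)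
    (μ : Measure X) (ν : Measure Y) [SFinite μ] [SFinite ν] (a : Y → ℝ≥0∞)
    (p : X → Y → ℝ≥0∞) (q : Y → X → ℝ≥0∞), Measurable a → Measurable (Function.uncurry p) →
    Measurable (Function.uncurry q) →
    T l (X × Y) (m.prod m') (μ.prod ν) (fun z => a z.2 * p z.1 z.2) (fun z z' => q z.2 z'.1) =
      T l Y m' ν a (fun y y' => ∫⁻ x, q y x * p x y' ∂μ) := by
  induction l with
  | zero =>
    intro X Y m m' μ ν _ _ a p q ha hp hq
    simp only [T]
    have hp' : Measurable fun z : X × Y => p z.1 z.2 := hp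
    have hq' : Measurable fun z : X × Y => q z.2 z.1 := hq.comp measurable_swap
    have h1 : Measurable fun z : X × Y => a z.2 * p z.1 z.2 * q z.2 z.1 :=
      ((ha.comp measurable_snd).mul hp').mul hq'
    rw [lintegral_prod_symm _ h1.aemeasurable]
    refine lintegral_congr fun y => ?_
    have h2 : Measurable fun x => q y x * p x y :=
      (hq'.comp (measurable_id.prodMk measurable_const)).mul
        (hp'.comp (measurable_id.prodMk measurable_const))
    rw [← lintegral_const_mul _ h2]
    refine lintegral_congr fun x => ?_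
    ring
  | succ l ih =>
    intro X Y m m' μ ν _ _ a p q ha hp hq
    have hp' : Measurable fun z : X × Y => p z.1 z.2 := hp
    have hq' : Measurable fun z : Y × X => q z.1 z.2 := hq
    have e1 := T_equiv l ((X × Y) × (X × Y)) ((X × X) × (Y × Y)) _ _
      ((μ.prod ν).prod (μ.prod ν)) ((μ.prod μ).prod (ν.prod ν)) (swp X Y) (swp_mp μ ν)
      (fun z => (a z.2.1 * a z.2.2) * (p z.1.1 z.2.1 * q z.2.1 z.1.2 * p z.1.2 z.2.2))
      (fun z z' => q z.2.2 z'.1.1)
    have e2 := ih (X × X) (Y × Y) (m.prod m) (m'.prod m') (μ.prod μ) (ν.prod ν)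
      (fun z => a z.1 * a z.2) (fun z w => p z.1 w.1 * q w.1 z.2 * p z.2 w.2)
      (fun w z => q w.2 z.1) ((ha.comp measurable_fst).mul (ha.comp measurable_snd))
      (((hp'.comp (by fun_prop : Measurable fun z : (X × X) × (Y × Y) => (z.1.1, z.2.1))).mul
        (hq'.comp (by fun_prop : Measurable fun z : (X × X) × (Y × Y) => (z.2.1, z.1.2)))).mul
        (hp'.comp (by fun_prop : Measurable fun z : (X × X) × (Y × Y) => (z.1.2, z.2.2))))
      (hq'.comp (by fun_prop : Measurable fun z : (Y × Y) × (X × X) => (z.1.2, z.2.1)))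
    have e3 := T_right l (Y × Y) (m'.prod m') (ν.prod ν) (fun z => a z.1 * a z.2)
      (fun z => ∫⁻ x, q z.1 x * p x z.2 ∂μ) (fun z z' => ∫⁻ x, q z.2 x * p x z'.1 ∂μ)
    have hr : (fun (z z' : Y × Y) => ∫⁻ w : X × X, q z.2 w.1 * (p w.1 z'.1 * q z'.1 w.2 *
        p w.2 z'.2) ∂(μ.prod μ)) = fun z z' => (∫⁻ x, q z.2 x * p x z'.1 ∂μ) *
          ∫⁻ x, q z'.1 x * p x z'.2 ∂μ := by
      funext z z'
      have k1 : Measurable fun x => q z.2 x * p x z'.1 :=
        (hq'.comp (measurable_const.prodMk measurable_id)).mul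
          (hp'.comp (measurable_id.prodMk measurable_const))
      have k2 : Measurable fun x => q z'.1 x * p x z'.2 :=
        (hq'.comp (measurable_const.prodMk measurable_id)).mul
          (hp'.comp (measurable_id.prodMk measurable_const))
      rw [← lintegral_prod_mul k1.aemeasurable k2.aemeasurable]
      refine lintegral_congr fun w => ?_
      ring
    simp only [T]
    rw [hr] at e2
    refine Eq.trans ?_ (e1.trans (e2.trans (e3.trans ?_)))
    · congr 1
      funext z
      show _ = (a z.1.2 * a z.2.2) * (p z.1.1 z.1.2 * q z.1.2 z.2.1 * p z.2.1 z.2.2)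
      ring
    · congr 1
      funext z
      ring

/-- Halving the number of factors of the weight. -/
theorem T_halve (l : ℕ) (X : Type) (m : MeasurableSpace X) (μ : Measure X) [SFinite μ]
    (b : X → ℝ≥0∞) (κ : X → X → ℝ≥0∞) (hb : Measurable b)
    (hκ : Measurable (Function.uncurry κ)) :
    T (l + 1) X m μ b κ ≤ T l X m μ (fun x => b x ^ 2) (fun x y => ∫⁻ z, κ x z * κ z y ∂μ) := by
  have hb2 : Measurable fun x => b x ^ 2 := hb.pow_const 2
  have h1 := T_amgm l (X × X) (m.prod m) (μ.prod μ) (fun p => b p.1) (fun p => b p.2)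
    (fun p => κ p.1 p.2) (fun p q => κ p.2 q.1) (hb.comp measurable_fst)
    (hb.comp measurable_snd) hκ
    (hκ.comp ((measurable_snd.comp measurable_fst).prodMk (measurable_fst.comp measurable_snd)))
  rw [T_marg l X X m m μ μ (fun x => b x ^ 2) κ κ hb2 hκ hκ,
    T_marg' l X X m m μ μ (fun x => b x ^ 2) κ κ hb2 hκ hκ, ← two_mul] at h1
  have h2 : T (l + 1) X m μ b κ = T l (X × X) (m.prod m) (μ.prod μ)
      (fun p => b p.1 * b p.2 * κ p.1 p.2) (fun p q => κ p.2 q.1) := by
    simp only [T]
    congr 1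
    funext p
    ring
  rw [h2]
  exact (ENNReal.mul_le_mul_iff_right (by norm_num) (by norm_num)).1 h1

/-- Squaring the kernel. -/
theorem T_sq (l : ℕ) (X : Type) (m : MeasurableSpace X) (μ : Measure X) [SFinite μ]
    (κ : X → X → ℝ≥0∞) (hκ : Measurable (Function.uncurry κ)) :
    T (l + 1) X m μ (fun _ => 1) κ =
      T l X m μ (fun _ => 1) (fun x y => ∫⁻ z, κ x z * κ z y ∂μ) := by
  rw [← T_marg l X X m m μ μ (fun _ => 1) κ κ measurable_const hκ hκ]
  simp only [T, one_mul, mul_one]

end Pool.Agent.L7h99.LS
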