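import Pool.Agent.L7h99.LS.Heat
import Pool.Agent.Helper717.LT.P_pd_basic

set_option autoImplicit false

/-!
# A Golden-Thompson bound for the kinetic energy
-/

open MeasureTheory Set Filter Topology Real
open scoped ENNReal

namespace Pool.Agent.L7h99.LS

variable {d : ℕ}

theorem bd_of_cont {f : (Fin d → ℝ) → ℝ} (hf : Continuous f) (hc : HasCompactSupport f) :
    ∃ C, 0 ≤ C ∧ Bd f C := by
  obtain ⟨C, hC⟩ := hc.exists_bound_of_continuous hf
  refine ⟨max C 0, le_max_right _ _, hf.measurable, fun x => ?_⟩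
  rw [← Real.norm_eq_abs]
  exact (hC x).trans (le_max_left _ _)

theorem pd_smul_exp {h f : (Fin d → ℝ) → ℝ} (hh : ContDiff ℝ 1 h) (hf : ContDiff ℝ 1 f) (c : ℝ)
    (k : Fin d) (x : Fin d → ℝ) :
    LTd.pd k (fun x => Real.exp (h x / c) * f x) x =
      Real.exp (h x / c) * (LTd.pd k f x + f x * LTd.pd k h x / c) := by
  have h1 : HasFDerivAt h (fderiv ℝ h x) x := ((hh.differentiable one_ne_zero) x).hasFDerivAt
  have h2 : HasFDerivAt f (fderiv ℝ f x) x := ((hf.differentiable one_ne_zero) x).hasFDerivAt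
  have h3 := ((h1.mul_const c⁻¹).exp).mul h2
  have e : (fun x => Real.exp (h x / c) * f x) = (fun x => Real.exp (h x * c⁻¹)) * f := by
    funext y; rw [Pi.mul_apply, div_eq_mul_inv]
  unfold LTd.pd
  rw [e, HasFDerivAt.fderiv h3]
  simp only [ContinuousLinearMap.add_apply, ContinuousLinearMap.smul_apply, smul_eq_mul]
  rw [div_eq_mul_inv, div_eq_mul_inv]
  ring

/-- One step of the power argument. -/
theorem step (hS : P_SEMI) (hL : P_LOW) (s : ℝ) (hs : 0 < s) (h : (Fin d → ℝ) → ℝ)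
    (hh : ContDiff ℝ 1 h) (H : ℝ) (hH : ∀ x, |h x| ≤ H) (Ω : Set (Fin d → ℝ))
    (hΩ : volume Ω ≠ ∞) (n : ℕ) (f : Fin n → (Fin d → ℝ) → ℝ)
    (hf : ∀ i, ContDiff ℝ 1 (f i)) (hfc : ∀ i, HasCompactSupport (f i))
    (hf0 : ∀ i, ∀ x ∉ Ω, f i x = 0)
    (hG : ∀ v : Fin n → ℝ, ∫ x, (∑ i, v i * f i x) ^ 2 ≤ ∑ i, v i ^ 2)
    (Z : ℝ) (hZ0 : 0 < Z)
    (hZ : T 1 _ _ (volume.restrict Ω) (fun x => ENNReal.ofReal (Real.exp (h x / 2)))
      (E (s / 2)) ≤ ENNReal.ofReal Z) (l : ℕ)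
    (hpos : 0 ≤ (∫ x, ∑ i, f i x ^ 2) + ((∫ x, h x * ∑ i, f i x ^ 2) -
      s * (Real.exp (H / 2 ^ (l + 1)) * ((1 + 1 / 2 ^ (l + 1)) *
        (∫ x, ∑ k, ∑ i, LTd.pd k (f i) x ^ 2) + 1 / 2 ^ (l + 1) *
          ∫ x, ∑ k, ∑ i, (f i x * LTd.pd k h x) ^ 2))) / 2 ^ (l + 1)) :
    ((∫ x, ∑ i, f i x ^ 2) + ((∫ x, h x * ∑ i, f i x ^ 2) -
      s * (Real.exp (H / 2 ^ (l + 1)) * ((1 + 1 / 2 ^ (l + 1)) *
        (∫ x, ∑ k, ∑ i, LTd.pd k (f i) x ^ 2) + 1 / 2 ^ (l + 1) *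
          ∫ x, ∑ k, ∑ i, (f i x * LTd.pd k h x) ^ 2))) / 2 ^ (l + 1)) ^ (2 ^ (l + 1)) ≤
      (∫ x, ∑ i, f i x ^ 2) ^ (2 ^ (l + 1) - 1) * Z := by
  set m : ℝ := 2 ^ (l + 1) with hm
  have hm1 : 1 ≤ m := one_le_pow₀ (by norm_num)
  have hm0 : 0 < m := by linarith
  have : IsFiniteMeasure (volume.restrict Ω) := ⟨by
    rw [Measure.restrict_apply_univ]; exact lt_of_le_of_ne le_top hΩ⟩
  set τ : ℝ := s / m with hτ
  have hτ0 : 0 < τ := by positivity
  set k : (Fin d → ℝ) → (Fin d → ℝ) → ℝ := fun x y =>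
    Real.exp (h x / (2 * m)) * (G τ (x - y) * Real.exp (h y / (2 * m))) with hk
  have hhc : Continuous h := hh.continuous
  have hEle : ∀ x, Real.exp (h x / (2 * m)) ≤ Real.exp (H / (2 * m)) := fun x =>
    Real.exp_le_exp.2 (div_le_div_of_nonneg_right ((le_abs_self _).trans (hH x)) (by positivity))
  have hKer : Ker k (Real.exp (H / (2 * m)) * ((√(4 * π * τ))⁻¹ ^ d * Real.exp (H / (2 * m)))) := by
    refine ⟨?_, fun x y => ?_, fun x y => ?_, fun x y => ?_⟩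
    · have : Continuous (Function.uncurry k) := by
        have hG' : Continuous fun p : (Fin d → ℝ) × (Fin d → ℝ) => G τ (p.1 - p.2) :=
          (G_cont τ).comp (by fun_prop)
        show Continuous fun p : (Fin d → ℝ) × (Fin d → ℝ) => Real.exp (h p.1 / (2 * m)) *
          (G τ (p.1 - p.2) * Real.exp (h p.2 / (2 * m)))
        fun_prop
      exact this.measurable
    · exact mul_nonneg (Real.exp_pos _).le (mul_nonneg (G_nonneg _ _) (Real.exp_pos _).le)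
    · refine mul_le_mul (hEle x) (mul_le_mul (G_le hτ0 _) (hEle y) (Real.exp_pos _).le
        (by positivity)) (mul_nonneg (G_nonneg _ _) (Real.exp_pos _).le) (Real.exp_pos _).le
    · simp only [hk]
      rw [G_symm]; ring
  choose C hC0 hC using fun i => bd_of_cont (hf i).continuous (hfc i)
  have hBd : ∀ i, Bd (f i) (∑ j, C j) := fun i => ⟨(hC i).meas, fun x =>
    ((hC i).le x).trans (Finset.single_le_sum (fun j _ => hC0 j) (Finset.mem_univ i))⟩
  have r0 : ∀ g : (Fin d → ℝ) → ℝ, (∀ x ∉ Ω, g x = 0) → ∫ x in Ω, g x = ∫ x, g x := fun g hg =>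
    setIntegral_eq_integral_of_forall_compl_eq_zero hg
  have hG' : ∀ v : Fin n → ℝ, ∫ x in Ω, (∑ i, v i * f i x) ^ 2 ≤ ∑ i, v i ^ 2 := fun v => by
    rw [r0 _ fun x hx => by simp [hf0 _ x hx]]
    exact hG v
  have hmom := moment (μ := volume.restrict Ω) l k _ hKer f _ hBd hG'
  have hT := T_bound hS Ω l s hs h hhc.measurable
  -- integrability
  have i1 : ∀ i, Integrable fun x => f i x ^ 2 := fun i =>
    ((hf i).continuous.pow 2).integrable_of_hasCompactSupport (by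
      have := (hfc i).mul_right (f' := f i)
      simpa only [sq] using this)
  have eΛ : ∑ i, ∫ x in Ω, f i x ^ 2 = ∫ x, ∑ i, f i x ^ 2 := by
    rw [integral_finsetSum _ fun i _ => i1 i]
    exact Finset.sum_congr rfl fun i _ => r0 _ fun x hx => by simp [hf0 _ x hx]
  have hΛ0 : 0 ≤ ∫ x, ∑ i, f i x ^ 2 := integral_nonneg fun x =>
    Finset.sum_nonneg fun i _ => sq_nonneg _
  -- the upper bound
  set S : ℝ := ∑ i, ∫ x in Ω, f i x * AA (volume.restrict Ω) k (f i) x with hSdef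
  have hup : S ^ (2 ^ (l + 1)) ≤ (∫ x, ∑ i, f i x ^ 2) ^ (2 ^ (l + 1) - 1) * Z := by
    rw [eΛ] at hmom
    have h1 := hmom.trans (mul_le_mul_right (hT.trans hZ) _)
    rw [← ENNReal.ofReal_mul (pow_nonneg hΛ0 _)] at h1
    exact (ENNReal.ofReal_le_ofReal_iff (mul_nonneg (pow_nonneg hΛ0 _) hZ0.le)).1 h1
  refine (pow_le_pow_left₀ hpos ?_ _).trans hup
  -- the lower bound
  set g : Fin n → (Fin d → ℝ) → ℝ := fun i x => Real.exp (h x / (2 * m)) * f i x with hg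
  have hgC : ∀ i, ContDiff ℝ 1 (g i) := fun i =>
    ((hh.div_const _).exp).mul (hf i)
  have hgc : ∀ i, HasCompactSupport (g i) := fun i => (hfc i).mul_left
  have hlow : ∀ i, (∫ x, g i x ^ 2) - τ * ∫ x, ∑ k, LTd.pd k (g i) x ^ 2 ≤
      ∫ x in Ω, f i x * AA (volume.restrict Ω) k (f i) x := fun i => by
    refine (hL d τ hτ0 (g i) (hgC i) (hgc i)).trans (le_of_eq ?_)
    rw [r0 _ fun x hx => by simp [hf0 _ x hx]]
    refine integral_congr_ae (Eventually.of_forall fun x => ?_)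
    simp only [hg, AA, hk]
    rw [r0 _ fun y hy => by simp [hf0 _ y hy], ← integral_const_mul]
    refine integral_congr_ae (Eventually.of_forall fun y => ?_)
    simp only
    ring
  have i2 : ∀ i, Integrable fun x => g i x ^ 2 := fun i =>
    ((hgC i).continuous.pow 2).integrable_of_hasCompactSupport (by
      have := (hgc i).mul_right (f' := g i)
      simpa only [sq] using this)
  have i3 : ∀ (F : (Fin d → ℝ) → ℝ), Continuous F → HasCompactSupport F →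
      Integrable fun x => F x ^ 2 := fun F hF hFc =>
    (hF.pow 2).integrable_of_hasCompactSupport (by
      have := hFc.mul_right (f' := F)
      simpa only [sq] using this)
  have i4 : ∀ i, Integrable fun x => ∑ k, LTd.pd k (g i) x ^ 2 := fun i =>
    integrable_finsetSum _ fun k _ => i3 _ (LTd.pd_basic (hgC i) (hgc i) k).1
      (LTd.pd_basic (hgC i) (hgc i) k).2
  have hsum : (∫ x, ∑ i, g i x ^ 2) - τ * ∫ x, ∑ k, ∑ i, LTd.pd k (g i) x ^ 2 ≤ S := by
    have e1 : ∫ x, ∑ k, ∑ i, LTd.pd k (g i) x ^ 2 = ∑ i, ∫ x, ∑ k, LTd.pd k (g i) x ^ 2 := by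
      rw [← integral_finsetSum _ fun i _ => i4 i]
      refine integral_congr_ae (Eventually.of_forall fun x => ?_)
      exact Finset.sum_comm
    rw [e1, integral_finsetSum _ fun i _ => i2 i, Finset.mul_sum, ← Finset.sum_sub_distrib]
    exact Finset.sum_le_sum fun i _ => hlow i
  refine le_trans ?_ hsum
  -- mass part
  have hpdh : ∀ k, Continuous (LTd.pd k h) := fun k =>
    (hh.continuous_fderiv (by norm_num)).clm_apply continuous_const
  have i5 : Integrable fun x => ∑ i, f i x ^ 2 := integrable_finsetSum _ fun i _ => i1 i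
  have i6 : Integrable fun x => h x * ∑ i, f i x ^ 2 := by
    refine (hhc.mul (continuous_finsetSum _ fun i _ => (hf i).continuous.pow 2)
      ).integrable_of_hasCompactSupport ?_
    refine HasCompactSupport.mul_left ?_
    refine HasCompactSupport.intro (K := ⋃ i, tsupport (f i))
      (isCompact_iUnion fun i => hfc i) fun x hx => ?_
    refine Finset.sum_eq_zero fun i _ => ?_
    have : x ∉ tsupport (f i) := fun hx' => hx (mem_iUnion.2 ⟨i, hx'⟩)
    show f i x ^ 2 = 0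
    rw [image_eq_zero_of_notMem_tsupport this]; simp
  have i7 : Integrable fun x => ∑ i, g i x ^ 2 := integrable_finsetSum _ fun i _ => i2 i
  have m1 : (∫ x, ∑ i, f i x ^ 2) + (∫ x, h x * ∑ i, f i x ^ 2) / m ≤ ∫ x, ∑ i, g i x ^ 2 := by
    have i8 : Integrable fun x => (h x * ∑ i, f i x ^ 2) / m := i6.div_const _
    rw [← integral_div, ← integral_add i5 i8]
    refine integral_mono (i5.add i8) i7 fun x => ?_
    show (∑ i, f i x ^ 2) + (h x * ∑ i, f i x ^ 2) / m ≤ ∑ i, g i x ^ 2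
    have e1 : ∑ i, g i x ^ 2 = Real.exp (h x / m) * ∑ i, f i x ^ 2 := by
      rw [Finset.mul_sum]
      refine Finset.sum_congr rfl fun i _ => ?_
      simp only [hg]
      rw [mul_pow, ← Real.exp_nat_mul]
      congr 2
      push_cast
      field_simp
    rw [e1]
    have h1 := Real.add_one_le_exp (h x / m)
    have h2 : 0 ≤ ∑ i, f i x ^ 2 := Finset.sum_nonneg fun i _ => sq_nonneg _
    calc (∑ i, f i x ^ 2) + (h x * ∑ i, f i x ^ 2) / m = (h x / m + 1) * ∑ i, f i x ^ 2 := by ring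
      _ ≤ _ := mul_le_mul_of_nonneg_right h1 h2
  have j1 : Integrable fun x => ∑ k, ∑ i, LTd.pd k (f i) x ^ 2 :=
    integrable_finsetSum _ fun k _ => integrable_finsetSum _ fun i _ =>
      i3 _ (LTd.pd_basic (hf i) (hfc i) k).1 (LTd.pd_basic (hf i) (hfc i) k).2
  have j2 : Integrable fun x => ∑ k, ∑ i, (f i x * LTd.pd k h x) ^ 2 :=
    integrable_finsetSum _ fun k _ => integrable_finsetSum _ fun i _ =>
      i3 _ ((hf i).continuous.mul (hpdh k)) (hfc i).mul_right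
  have j3 : Integrable fun x => ∑ k, ∑ i, LTd.pd k (g i) x ^ 2 :=
    integrable_finsetSum _ fun k _ => integrable_finsetSum _ fun i _ =>
      i3 _ (LTd.pd_basic (hgC i) (hgc i) k).1 (LTd.pd_basic (hgC i) (hgc i) k).2
  have m2 : ∫ x, ∑ k, ∑ i, LTd.pd k (g i) x ^ 2 ≤
      Real.exp (H / m) * ((1 + 1 / m) * (∫ x, ∑ k, ∑ i, LTd.pd k (f i) x ^ 2) +
        1 / m * ∫ x, ∑ k, ∑ i, (f i x * LTd.pd k h x) ^ 2) := by
    have j4 : Integrable fun x => (1 + 1 / m) * ∑ k, ∑ i, LTd.pd k (f i) x ^ 2 := j1.const_mul _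
    have j5 : Integrable fun x => 1 / m * ∑ k, ∑ i, (f i x * LTd.pd k h x) ^ 2 := j2.const_mul _
    rw [← integral_const_mul, ← integral_const_mul, ← integral_add j4 j5, ← integral_const_mul]
    refine integral_mono j3 ((j4.add j5).const_mul _) fun x => ?_
    show ∑ k, ∑ i, LTd.pd k (g i) x ^ 2 ≤ Real.exp (H / m) * ((1 + 1 / m) *
      (∑ k, ∑ i, LTd.pd k (f i) x ^ 2) + 1 / m * ∑ k, ∑ i, (f i x * LTd.pd k h x) ^ 2)
    rw [Finset.mul_sum, Finset.mul_sum, ← Finset.sum_add_distrib, Finset.mul_sum]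
    refine Finset.sum_le_sum fun k _ => ?_
    rw [Finset.mul_sum, Finset.mul_sum, ← Finset.sum_add_distrib, Finset.mul_sum]
    refine Finset.sum_le_sum fun i _ => ?_
    have e1 : LTd.pd k (g i) x =
        Real.exp (h x / (2 * m)) * (LTd.pd k (f i) x + f i x * LTd.pd k h x / (2 * m)) :=
      pd_smul_exp hh (hf i) _ k x
    rw [e1, mul_pow]
    have e2 : Real.exp (h x / (2 * m)) ^ 2 = Real.exp (h x / m) := by
      rw [← Real.exp_nat_mul]
      congr 1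
      push_cast
      field_simp
    rw [e2]
    refine mul_le_mul (Real.exp_le_exp.2 (div_le_div_of_nonneg_right
      ((le_abs_self _).trans (hH x)) hm0.le)) ?_ (sq_nonneg _) (Real.exp_pos _).le
    set A := LTd.pd k (f i) x
    set B := f i x * LTd.pd k h x
    have hi : (1 + 1 / m) * A ^ 2 + 1 / m * B ^ 2 - (A + B / (2 * m)) ^ 2 =
        (1 / m) * ((A - B / 2) ^ 2 + (3 / 4 - 1 / (4 * m)) * B ^ 2) := by
      field_simp
      ring
    have hq : 0 ≤ 3 / 4 - 1 / (4 * m) := by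
      have : 1 / (4 * m) ≤ 1 / 4 := by
        apply one_div_le_one_div_of_le <;> linarith
      linarith
    have : 0 ≤ (1 / m) * ((A - B / 2) ^ 2 + (3 / 4 - 1 / (4 * m)) * B ^ 2) := by positivity
    linarith
  have m3 := mul_le_mul_of_nonneg_left m2 hτ0.le
  have e9 : τ * (Real.exp (H / m) * ((1 + 1 / m) * (∫ x, ∑ k, ∑ i, LTd.pd k (f i) x ^ 2) +
        1 / m * ∫ x, ∑ k, ∑ i, (f i x * LTd.pd k h x) ^ 2)) =
      (s * (Real.exp (H / m) * ((1 + 1 / m) * (∫ x, ∑ k, ∑ i, LTd.pd k (f i) x ^ 2) +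
        1 / m * ∫ x, ∑ k, ∑ i, (f i x * LTd.pd k h x) ^ 2))) / m := by
    rw [hτ]; ring
  rw [e9] at m3
  rw [sub_div]
  linarith

/-- The Golden-Thompson bound. -/
theorem gt (hS : P_SEMI) (hL : P_LOW) (s : ℝ) (hs : 0 < s) (h : (Fin d → ℝ) → ℝ)
    (hh : ContDiff ℝ 1 h) (H : ℝ) (hH : ∀ x, |h x| ≤ H) (Ω : Set (Fin d → ℝ))
    (hΩ : volume Ω ≠ ∞) (n : ℕ) (f : Fin n → (Fin d → ℝ) → ℝ)
    (hf : ∀ i, ContDiff ℝ 1 (f i)) (hfc : ∀ i, HasCompactSupport (f i))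
    (hf0 : ∀ i, ∀ x ∉ Ω, f i x = 0)
    (hG : ∀ v : Fin n → ℝ, ∫ x, (∑ i, v i * f i x) ^ 2 ≤ ∑ i, v i ^ 2)
    (hΛ : 0 < ∫ x, ∑ i, f i x ^ 2) (Z : ℝ) (hZ0 : 0 < Z)
    (hZ : T 1 _ _ (volume.restrict Ω) (fun x => ENNReal.ofReal (Real.exp (h x / 2)))
      (E (s / 2)) ≤ ENNReal.ofReal Z) :
    (∫ x, h x * ∑ i, f i x ^ 2) + (∫ x, ∑ i, f i x ^ 2) *
      (Real.log (∫ x, ∑ i, f i x ^ 2) - Real.log Z) ≤
      s * ∫ x, ∑ k, ∑ i, LTd.pd k (f i) x ^ 2 := by
  have hst := step hS hL s hs h hh H hH Ω hΩ n f hf hfc hf0 hG Z hZ0 hZ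
  set Λ := ∫ x, ∑ i, f i x ^ 2 with hΛd
  set I := ∫ x, h x * ∑ i, f i x ^ 2
  set Tf := ∫ x, ∑ k, ∑ i, LTd.pd k (f i) x ^ 2
  set B := ∫ x, ∑ k, ∑ i, (f i x * LTd.pd k h x) ^ 2
  set u : ℝ → ℝ := fun m => I - s * (Real.exp (H / m) * ((1 + 1 / m) * Tf + 1 / m * B)) with hu
  have hinv : Tendsto (fun m : ℕ => (1:ℝ) / m) atTop (𝓝 0) := tendsto_one_div_atTop_nhds_zero_nat
  have hinvH : Tendsto (fun m : ℕ => H / (m : ℝ)) atTop (𝓝 0) := tendsto_const_div_atTop_nhds_zero_nat H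
  have hexp : Tendsto (fun m : ℕ => Real.exp (H / m)) atTop (𝓝 1) := by
    have := (Real.continuous_exp.tendsto 0).comp hinvH
    rwa [Real.exp_zero] at this
  have hu1 : Tendsto (fun m : ℕ => u m) atTop (𝓝 (I - s * (1 * ((1 + 0) * Tf + 0 * B)))) := by
    refine Tendsto.const_sub _ (Tendsto.const_mul _ (hexp.mul ?_))
    exact ((hinv.const_add 1).mul_const Tf).add (hinv.mul_const B)
  have hu2 : Tendsto (fun m : ℕ => (m : ℝ) * (u m / (Λ * m))) atTop (𝓝 ((I - s * Tf) / Λ)) := by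
    have e : I - s * (1 * ((1 + 0) * Tf + 0 * B)) = I - s * Tf := by ring
    rw [e] at hu1
    refine (hu1.div_const Λ).congr' ?_
    filter_upwards [eventually_ge_atTop 1] with m hm
    have : (m : ℝ) ≠ 0 := by positivity
    field_simp
  have hlim := Real.tendsto_one_add_pow_exp_of_tendsto hu2
  have hsub : Tendsto (fun l : ℕ => 2 ^ (l + 1)) atTop (atTop : Filter ℕ) :=
    (tendsto_pow_atTop_atTop_of_one_lt (by norm_num : (1:ℕ) < 2)).comp (tendsto_add_atTop_nat 1)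
  have hlim2 := hlim.comp hsub
  have hpos : ∀ᶠ l : ℕ in atTop, 0 ≤ Λ + u ((2 ^ (l + 1) : ℕ) : ℝ) / ((2 ^ (l + 1) : ℕ) : ℝ) := by
    have h1 : Tendsto (fun m : ℕ => Λ + u m / m) atTop (𝓝 (Λ + 0)) := by
      refine Tendsto.const_add _ ?_
      exact hu1.div_atTop tendsto_natCast_atTop_atTop
    have h2 := h1.comp hsub
    rw [add_zero] at h2
    exact (h2.eventually (lt_mem_nhds hΛ)).mono fun l hl => le_of_lt hl
  have hle : ∀ᶠ l : ℕ in atTop,
      ((fun m : ℕ => (1 + u m / (Λ * m)) ^ m) ∘ fun l : ℕ => 2 ^ (l + 1)) l ≤ Z / Λ := by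
    filter_upwards [hpos] with l hl
    push_cast at hl
    have h1 := hst l hl
    simp only [Function.comp]
    have e1 : (1 + u ((2 ^ (l + 1) : ℕ) : ℝ) / (Λ * ((2 ^ (l + 1) : ℕ) : ℝ))) =
        (Λ + u (2 ^ (l + 1)) / 2 ^ (l + 1)) / Λ := by
      push_cast
      field_simp
    rw [e1, div_pow]
    have h2 : (Λ + u (2 ^ (l + 1)) / 2 ^ (l + 1)) ^ (2 ^ (l + 1)) ≤
        Λ ^ (2 ^ (l + 1) - 1) * Z := h1
    have e2 : Λ ^ (2 ^ (l + 1)) = Λ ^ (2 ^ (l + 1) - 1) * Λ := by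
      rw [← pow_succ]
      congr 1
      have : 1 ≤ 2 ^ (l + 1) := Nat.one_le_two_pow
      omega
    rw [e2]
    rw [div_le_div_iff₀ (by positivity) hΛ]
    calc _ ≤ Λ ^ (2 ^ (l + 1) - 1) * Z * Λ := mul_le_mul_of_nonneg_right h2 hΛ.le
      _ = _ := by ring
  have hfin : Real.exp ((I - s * Tf) / Λ) ≤ Z / Λ := le_of_tendsto hlim2 hle
  have h3 : (I - s * Tf) / Λ ≤ Real.log (Z / Λ) :=
    (Real.le_log_iff_exp_le (by positivity)).2 hfin
  rw [Real.log_div hZ0.ne' hΛ.ne', div_le_iff₀ hΛ] at h3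
  linarith

end Pool.Agent.L7h99.LS
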