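import Pool.Agent.L7h99.LS.Window
import Pool.Agent.L7h99.LS.Cut

set_option autoImplicit false

/-!
# Summation over the windows
-/

open MeasureTheory Set Filter Topology Real
open scoped ENNReal

namespace Pool.Agent.L7h99.LS

variable {d : ℕ}

/-- The positive function equal to the identity above `r₁`. -/
noncomputable def psi (r₁ r : ℝ) : ℝ :=
  Real.smoothTransition (2 * r / r₁ - 1) * r + (1 - Real.smoothTransition (2 * r / r₁ - 1)) * r₁

theorem psi_pos {r₁ : ℝ} (h₁ : 0 < r₁) (r : ℝ) : 0 < psi r₁ r := by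
  unfold psi
  have h0 := Real.smoothTransition.nonneg (2 * r / r₁ - 1)
  have h1 := Real.smoothTransition.le_one (2 * r / r₁ - 1)
  rcases le_or_gt (2 * r / r₁ - 1) 0 with h | h
  · rw [Real.smoothTransition.zero_of_nonpos h]
    linarith
  · have hr : 0 < r := by
      by_contra hr
      have : 2 * r / r₁ ≤ 0 := div_nonpos_of_nonpos_of_nonneg (by linarith) h₁.le
      linarith
    set S := Real.smoothTransition (2 * r / r₁ - 1)
    have a1 : 0 ≤ S * r := mul_nonneg h0 hr.le
    have a2 : 0 ≤ (1 - S) * r₁ := mul_nonneg (by linarith) h₁.le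
    rcases h0.lt_or_eq with h2 | h2
    · have : 0 < S * r := mul_pos h2 hr
      linarith
    · rw [← h2]
      linarith

theorem psi_eq {r₁ r : ℝ} (h₁ : 0 < r₁) (h : r₁ ≤ r) : psi r₁ r = r := by
  unfold psi
  rw [Real.smoothTransition.one_of_one_le]
  · ring
  · have : 2 ≤ 2 * r / r₁ := by rw [le_div_iff₀ h₁]; linarith
    linarith

theorem psi_contDiff (r₁ : ℝ) : ContDiff ℝ 1 (psi r₁) := by
  unfold psi
  have h : ContDiff ℝ 1 Real.smoothTransition := Real.smoothTransition.contDiff (n := 1)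
  have h2 : ContDiff ℝ 1 fun r : ℝ => 2 * r / r₁ - 1 := by fun_prop
  have h3 := h.comp h2
  exact (h3.mul contDiff_id).add ((contDiff_const.sub h3).mul contDiff_const)

theorem pd_win {ρ F : (Fin d → ℝ) → ℝ} (hρ : ContDiff ℝ 1 ρ) (hF : ContDiff ℝ 1 F) {W : ℝ → ℝ}
    {W' : ℝ} (x : Fin d → ℝ) (hW : HasDerivAt W W' (ρ x)) (k : Fin d) :
    LTd.pd k (fun x => W (ρ x) * F x) x =
      W' * LTd.pd k ρ x * F x + W (ρ x) * LTd.pd k F x := by
  have h1 : HasFDerivAt ρ (fderiv ℝ ρ x) x := ((hρ.differentiable one_ne_zero) x).hasFDerivAt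
  have h2 : HasFDerivAt F (fderiv ℝ F x) x := ((hF.differentiable one_ne_zero) x).hasFDerivAt
  have h3 : HasFDerivAt (fun x => W (ρ x)) (W' • fderiv ℝ ρ x) x := hW.comp_hasFDerivAt x h1
  have h4 := h3.fun_mul h2
  unfold LTd.pd
  rw [h4.fderiv]
  simp only [_root_.add_apply, _root_.smul_apply, smul_eq_mul]
  ring

theorem pd_rho {n : ℕ} {F : Fin n → (Fin d → ℝ) → ℝ} (hF : ∀ i, ContDiff ℝ 1 (F i))
    (x : Fin d → ℝ) (k : Fin d) :
    LTd.pd k (fun x => ∑ i, F i x ^ 2) x = 2 * ∑ i, F i x * LTd.pd k (F i) x := by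
  have h1 : ∀ i, HasFDerivAt (fun x => F i x ^ 2) (F i x • fderiv ℝ (F i) x +
      F i x • fderiv ℝ (F i) x) x := fun i => by
    have h2 := (((hF i).differentiable one_ne_zero) x).hasFDerivAt
    have h3 := h2.fun_mul h2
    simpa only [sq] using h3
  have h4 : HasFDerivAt (fun x => ∑ i, F i x ^ 2) (∑ i, (F i x • fderiv ℝ (F i) x +
      F i x • fderiv ℝ (F i) x)) x := HasFDerivAt.fun_sum fun i _ => h1 i
  unfold LTd.pd
  rw [h4.fderiv, _root_.sum_apply, Finset.mul_sum]
  refine Finset.sum_congr rfl fun i _ => ?_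
  simp only [_root_.add_apply, _root_.smul_apply, smul_eq_mul]
  ring

/-- The localization error, pointwise. -/
theorem local_err {n : ℕ} {F : Fin n → (Fin d → ℝ) → ℝ} (hF : ∀ i, ContDiff ℝ 1 (F i))
    {ω C c : ℝ} (hω : 0 < ω) (hC : ∀ t, |deriv ang t| ≤ C)
    (x : Fin d → ℝ) (hc : ∑ i, F i x ^ 2 ≤ Real.exp (ω * c)) (M : ℕ) :
    ∑ w ∈ Finset.range M, ∑ k, ∑ i,
      LTd.pd k (fun x => win_fn ω c w (∑ i, F i x ^ 2) * F i x) x ^ 2 ≤
      (1 + 4 * C ^ 2 / ω ^ 2) * ∑ k, ∑ i, LTd.pd k (F i) x ^ 2 := by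
  rw [Finset.sum_comm, Finset.mul_sum]
  refine Finset.sum_le_sum fun k _ => ?_
  have hρC : ContDiff ℝ 1 fun x => ∑ i, F i x ^ 2 := ContDiff.sum fun i _ => (hF i).pow 2
  have hA : 0 ≤ ∑ i, LTd.pd k (F i) x ^ 2 := Finset.sum_nonneg fun i _ => sq_nonneg _
  rcases (Finset.sum_nonneg fun i _ => sq_nonneg (F i x) :
    0 ≤ ∑ i, F i x ^ 2).lt_or_eq with hr | hr
  swap
  · -- zero density
    have h1 : ∀ w ∈ Finset.range M, ∑ i,
        LTd.pd k (fun x => win_fn ω c w (∑ i, F i x ^ 2) * F i x) x ^ 2 = 0 := by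
      intro w _
      refine Finset.sum_eq_zero fun i _ => ?_
      have h2 : HasDerivAt (win_fn ω c w) 0 (∑ i, F i x ^ 2) :=
        win_fn_deriv_zero c hω w hr.symm.le
      rw [pd_win hρC (hF i) x h2 k, win_fn_nonpos hr.symm.le]
      ring
    rw [Finset.sum_eq_zero h1]
    positivity
  set r := ∑ i, F i x ^ 2 with hrdef
  set P := LTd.pd k (fun x => ∑ i, F i x ^ 2) x with hP
  set A := ∑ i, LTd.pd k (F i) x ^ 2 with hAdef
  set t₀ := c - Real.log r / ω with ht₀
  have ht : 0 ≤ t₀ := by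
    have h1 : Real.log r ≤ ω * c := (Real.log_le_iff_le_exp hr).2 hc
    have : Real.log r / ω ≤ c := by rw [div_le_iff₀ hω]; linarith
    linarith
  have hPeq : P = 2 * ∑ i, F i x * LTd.pd k (F i) x := pd_rho hF x k
  have hP4 : P ^ 2 ≤ 4 * A * r := by
    have h1 := Finset.sum_mul_sq_le_sq_mul_sq Finset.univ (fun i => F i x)
      (fun i => LTd.pd k (F i) x)
    rw [hPeq]
    nlinarith
  have hterm : ∀ w : ℕ, ∑ i,
      LTd.pd k (fun x => win_fn ω c w (∑ i, F i x ^ 2) * F i x) x ^ 2 =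
      Real.cos (ang (w - t₀)) ^ 2 * A -
      Real.cos (ang (w - t₀)) * Real.sin (ang (w - t₀)) * deriv ang (w - t₀) *
        (P ^ 2 / (ω * r)) +
        Real.sin (ang (w - t₀)) ^ 2 * deriv ang (w - t₀) ^ 2 * (P ^ 2 / (ω * r)) / ω := by
    intro w
    have harg : Real.log r / ω - c + w = w - t₀ := by rw [ht₀]; ring
    have h2 : HasDerivAt (win_fn ω c w) (-Real.sin (ang (w - t₀)) *
        (deriv ang (w - t₀) * (r⁻¹ / ω))) (∑ i, F i x ^ 2) := by
      have := win_fn_deriv (ω := ω) (c := c) (w := w) hr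
      rwa [harg] at this
    have hw : win_fn ω c w (∑ i, F i x ^ 2) = Real.cos (ang (w - t₀)) := by
      show win_fn ω c w r = _
      unfold win_fn
      rw [if_pos hr, harg]
    have h3 : ∀ i, LTd.pd k (fun x => win_fn ω c w (∑ i, F i x ^ 2) * F i x) x ^ 2 =
        (-Real.sin (ang (w - t₀)) * (deriv ang (w - t₀) * (r⁻¹ / ω)) * P) ^ 2 * F i x ^ 2 +
        (2 * (-Real.sin (ang (w - t₀)) * (deriv ang (w - t₀) * (r⁻¹ / ω)) * P) *
          Real.cos (ang (w - t₀))) * (F i x * LTd.pd k (F i) x) +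
        Real.cos (ang (w - t₀)) ^ 2 * LTd.pd k (F i) x ^ 2 := fun i => by
      rw [pd_win hρC (hF i) x h2 k, hw]
      ring
    simp only [h3]
    rw [Finset.sum_add_distrib, Finset.sum_add_distrib, ← Finset.mul_sum, ← Finset.mul_sum,
      ← Finset.mul_sum, ← hrdef, ← hAdef]
    have h5 : ∑ i, F i x * LTd.pd k (F i) x = P / 2 := by rw [hPeq]; ring
    rw [h5]
    have hr' : r ≠ 0 := hr.ne'
    field_simp
    ring
  simp only [hterm]
  have hB : 0 ≤ P ^ 2 / (ω * r) := by positivity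
  have hAB : P ^ 2 / (ω * r) * ω ≤ 4 * A := by
    have : P ^ 2 / (ω * r) * ω = P ^ 2 / r := by field_simp
    rw [this, div_le_iff₀ hr]
    exact hP4
  refine (ims hω hC hB hAB ht M).trans (le_of_eq ?_)
  ring

theorem win_abs_le (ω c : ℝ) (w : ℕ) (r : ℝ) : win_fn ω c w r ^ 2 ≤ 1 := by
  unfold win_fn
  split_ifs
  · exact Real.cos_sq_le_one _
  · norm_num

theorem main_bound (hS : P_SEMI) (hL : P_LOW) {C : ℝ} (hC : ∀ t, |deriv ang t| ≤ C)
    (hd : 4 ≤ d) (N₀ : ℝ) (hN0 : 0 < N₀) (ε : ℝ) (hε : 0 ≤ ε) (j : ℕ)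
    (hΓ : 6 + 3 / 2 * d * ε ≤
      ((d : ℝ) / 2 * Real.log (2 ^ j * Real.exp 1 / 4) - Real.log N₀ - √d) / 2 ^ j)
    (n : ℕ) (F : Fin n → (Fin d → ℝ) → ℝ) (hF : ∀ i, ContDiff ℝ 1 (F i))
    (hFc : ∀ i, HasCompactSupport (F i))
    (hG : ∀ v : Fin n → ℝ, ∫ x, (∑ i, v i * F i x) ^ 2 ≤ ∑ i, v i ^ 2)
    (hmass : ∫ x, ∑ i, F i x ^ 2 ≤ N₀) :
    2 * π * d / Real.exp 1 * (1 + ε) * ∫ x, (∑ i, F i x ^ 2) ^ (1 + 2 / (d : ℝ)) ≤
      (1 + 4 * C ^ 2 / d) * ∫ x, ∑ k, ∑ i, LTd.pd k (F i) x ^ 2 := by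
  have hd0 : (0:ℝ) < d := by positivity
  have hd4 : (4:ℝ) ≤ d := by exact_mod_cast hd
  set ω : ℝ := √d with hωd
  have hω : 0 < ω := Real.sqrt_pos.2 hd0
  have hωω : ω ^ 2 = d := Real.sq_sqrt hd0.le
  have hω2 : 2 ≤ ω := by
    rw [show (2:ℝ) = √4 by rw [show (4:ℝ) = 2 ^ 2 by norm_num, Real.sqrt_sq (by norm_num)]]
    exact Real.sqrt_le_sqrt hd4
  have hdω : 2 / (d:ℝ) * ω ≤ 1 := by
    rw [div_mul_eq_mul_div, div_le_one hd0]
    nlinarith
  set ρ : (Fin d → ℝ) → ℝ := fun x => ∑ i, F i x ^ 2 with hρ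
  have hρC : ContDiff ℝ 1 ρ := ContDiff.sum fun i _ => (hF i).pow 2
  have hρc : Continuous ρ := hρC.continuous
  have hρs : HasCompactSupport ρ := by
    refine HasCompactSupport.intro (K := ⋃ i, tsupport (F i))
      (isCompact_iUnion fun i => hFc i) fun x hx => ?_
    refine Finset.sum_eq_zero fun i _ => ?_
    have : x ∉ tsupport (F i) := fun hx' => hx (mem_iUnion.2 ⟨i, hx'⟩)
    rw [image_eq_zero_of_notMem_tsupport this]; simp
  have hρ0 : ∀ x, 0 ≤ ρ x := fun x => Finset.sum_nonneg fun i _ => sq_nonneg _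
  have hρi : Integrable ρ := hρc.integrable_of_hasCompactSupport hρs
  obtain ⟨R₀, hR₀⟩ := hρs.exists_bound_of_continuous hρc
  set R : ℝ := max R₀ 1 with hR
  have hR1 : 1 ≤ R := le_max_right _ _
  have hρR : ∀ x, ρ x ≤ R := fun x =>
    ((le_abs_self _).trans (hR₀ x)).trans (le_max_left _ _)
  set c : ℝ := Real.log R / ω with hcdef
  have hωc : ω * c = Real.log R := by rw [hcdef]; field_simp
  have hexpc : Real.exp (ω * c) = R := by rw [hωc, Real.exp_log (by linarith)]
  -- the families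
  set f : ℕ → Fin n → (Fin d → ℝ) → ℝ := fun w i x => win_fn ω c w (ρ x) * F i x with hf
  set Ω : ℕ → Set (Fin d → ℝ) := fun w => {x | 0 < ρ x ∧ |Real.log (ρ x) / ω - c + w| < 1}
    with hΩ
  set lam : ℕ → ℝ := fun w => ω * (c - w) with hlam
  set a : ℕ → ℝ := fun w => Real.exp (2 / d * (ω * (c - w))) with ha
  set ind : ℕ → (Fin d → ℝ) → ℝ := fun w x =>
    if |Real.log (ρ x) / ω - c + w| < 1 then 1 else 0 with hind
  have hlogm : Measurable fun x => Real.log (ρ x) := Real.measurable_log.comp hρc.measurable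
  have hind_set : ∀ w, MeasurableSet {x | |Real.log (ρ x) / ω - c + w| < 1} := fun w => by
    have : Measurable fun x => |Real.log (ρ x) / ω - c + w| :=
      (((hlogm.div_const ω).sub_const c).add_const _).abs
    exact measurableSet_lt this measurable_const
  have hΩm : ∀ w, MeasurableSet (Ω w) := fun w =>
    (measurableSet_lt measurable_const hρc.measurable).inter (hind_set w)
  have hΩf : ∀ w, volume (Ω w) ≠ ∞ := fun w => by
    refine ne_of_lt (lt_of_le_of_lt (measure_mono fun x hx => ?_) hρs.measure_lt_top)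
    exact subset_tsupport _ (Function.mem_support.2 hx.1.ne')
  have hfC : ∀ w i, ContDiff ℝ 1 (f w i) := fun w i =>
    ((win_fn_contDiff c hω w).comp hρC).mul (hF i)
  have hfs : ∀ w i, HasCompactSupport (f w i) := fun w i => (hFc i).mul_left
  have hf0 : ∀ w i, ∀ x ∉ Ω w, f w i x = 0 := fun w i x hx => by
    have : win_fn ω c w (ρ x) = 0 := by
      by_cases h0 : 0 < ρ x
      · refine win_fn_zero (not_lt.1 fun h1 => hx ⟨h0, h1⟩)
      · exact win_fn_nonpos (not_lt.1 h0)
    simp only [hf, this, zero_mul]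
  have hfsum : ∀ w x, ∑ i, f w i x ^ 2 = win_fn ω c w (ρ x) ^ 2 * ρ x := fun w x => by
    simp only [hf, hρ, mul_pow, Finset.mul_sum]
  have hfG : ∀ w, ∀ v : Fin n → ℝ, ∫ x, (∑ i, v i * f w i x) ^ 2 ≤ ∑ i, v i ^ 2 := by
    intro w v
    refine le_trans ?_ (hG v)
    have hc1 : Continuous fun x => ∑ i, v i * F i x :=
      continuous_finsetSum _ fun i _ => continuous_const.mul (hF i).continuous
    have hs1 : HasCompactSupport fun x => ∑ i, v i * F i x := by
      refine HasCompactSupport.intro (K := ⋃ i, tsupport (F i))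
        (isCompact_iUnion fun i => hFc i) fun x hx => ?_
      refine Finset.sum_eq_zero fun i _ => ?_
      have : x ∉ tsupport (F i) := fun hx' => hx (mem_iUnion.2 ⟨i, hx'⟩)
      rw [image_eq_zero_of_notMem_tsupport this, mul_zero]
    have hs2 : HasCompactSupport fun x => (∑ i, v i * F i x) ^ 2 :=
      hs1.comp_left (g := fun r : ℝ => r ^ 2) (by simp)
    have hi1 : Integrable fun x => (∑ i, v i * F i x) ^ 2 :=
      (hc1.pow 2).integrable_of_hasCompactSupport hs2
    have e1 : ∀ x, (∑ i, v i * f w i x) ^ 2 =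
        win_fn ω c w (ρ x) ^ 2 * (∑ i, v i * F i x) ^ 2 := fun x => by
      rw [← mul_pow, Finset.mul_sum]
      congr 1
      exact Finset.sum_congr rfl fun i _ => by simp only [hf]; ring
    have hcw : Continuous fun x => win_fn ω c w (ρ x) :=
      (win_fn_contDiff c hω w).continuous.comp hρc
    have hi2 : Integrable fun x => win_fn ω c w (ρ x) ^ 2 * (∑ i, v i * F i x) ^ 2 :=
      ((hcw.pow 2).mul (hc1.pow 2)).integrable_of_hasCompactSupport hs2.mul_left
    simp only [e1]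
    refine integral_mono hi2 hi1 fun x => ?_
    exact mul_le_of_le_one_left (sq_nonneg _) (win_abs_le _ _ _ _)
  -- the log-density
  set h : ℕ → (Fin d → ℝ) → ℝ := fun w x => Real.log (psi (Real.exp (ω * (c - w - 1))) (ρ x))
    with hh
  have hhC : ∀ w, ContDiff ℝ 1 (h w) := fun w =>
    ((psi_contDiff _).comp hρC).log fun x => (psi_pos (Real.exp_pos _) _).ne'
  have hhB : ∀ w, ∃ H, ∀ x, |h w x| ≤ H := by
    intro w
    have hcont : Continuous fun r => Real.log (psi (Real.exp (ω * (c - w - 1))) r) :=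
      (psi_contDiff _).continuous.log fun r => (psi_pos (Real.exp_pos _) r).ne'
    obtain ⟨H, hH⟩ := (isCompact_Icc (a := (0:ℝ)) (b := R)).exists_bound_of_continuousOn
      hcont.continuousOn
    exact ⟨H, fun x => by
      have := hH (ρ x) ⟨hρ0 x, hρR x⟩
      rwa [Real.norm_eq_abs] at this⟩
  have hhΩ : ∀ w, ∀ x ∈ Ω w, h w x = Real.log (ρ x) := by
    intro w x hx
    have h1 : Real.exp (ω * (c - w - 1)) ≤ ρ x := by
      have h2 := (abs_lt.1 hx.2).1
      have h3 : c - w - 1 ≤ Real.log (ρ x) / ω := by linarith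
      rw [le_div_iff₀ hω] at h3
      rw [← Real.le_log_iff_exp_le hx.1]
      linarith
    simp only [hh]
    rw [psi_eq (Real.exp_pos _) h1]
  -- the windows
  have hwin : ∀ w, 2 * π * d / Real.exp 1 * (1 + ε) *
      (∫ x, win_fn ω c w (ρ x) ^ 2 * ρ x ^ (1 + 2 / (d:ℝ))) +
      4 * π / Real.exp 1 * (a w * ∫ x, (5 * win_fn ω c w (ρ x) ^ 2 - ind w x) * ρ x) ≤
      ∫ x, ∑ k, ∑ i, LTd.pd k (f w i) x ^ 2 := by
    intro w
    obtain ⟨H, hH⟩ := hhB w
    have hl : ∀ x ∈ Ω w, |h w x - lam w| ≤ √d := by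
      intro x hx
      rw [hhΩ w x hx]
      have h1 : Real.log (ρ x) - lam w = ω * (Real.log (ρ x) / ω - c + w) := by
        simp only [hlam]; field_simp; ring
      rw [h1, abs_mul, abs_of_pos hω]
      have := hx.2.le
      calc ω * |Real.log (ρ x) / ω - c + w| ≤ ω * 1 := by gcongr
        _ = _ := mul_one _
    have hexpΩ : ∀ x ∈ Ω w, Real.exp (h w x) = ρ x := fun x hx => by
      rw [hhΩ w x hx, Real.exp_log hx.1]
    have hQ : ∫ x in Ω w, Real.exp (h w x) = ∫ x, ind w x * ρ x := by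
      rw [← integral_indicator (hΩm w)]
      refine integral_congr_ae (Eventually.of_forall fun x => ?_)
      simp only
      by_cases hx : x ∈ Ω w
      · rw [indicator_of_mem hx, hexpΩ x hx]
        simp only [hind]
        rw [if_pos hx.2, one_mul]
      · rw [indicator_of_notMem hx]
        simp only [hind]
        split_ifs with h1
        · have h2 : ¬ 0 < ρ x := fun h2 => hx ⟨h2, h1⟩
          have : ρ x = 0 := le_antisymm (not_lt.1 h2) (hρ0 x)
          rw [this, mul_zero]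
        · rw [zero_mul]
    have hindi : Integrable fun x => ind w x * ρ x := by
      have h1 : Integrable (indicator {x | |Real.log (ρ x) / ω - c + w| < 1} ρ) :=
        hρi.indicator (hind_set w)
      refine h1.congr (Eventually.of_forall fun x => ?_)
      simp only [hind, indicator, mem_ofPred_eq]
      split_ifs <;> simp
    have hNw : ∫ x in Ω w, Real.exp (h w x) ≤ N₀ := by
      rw [hQ]
      refine le_trans (integral_mono hindi hρi fun x => ?_) hmass
      simp only [hind]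
      have := hρ0 x
      split_ifs <;> linarith
    have key := win hS hL hd (h w) (hhC w) H hH (Ω w) (hΩm w) (hΩf w) n (f w) (hfC w) (hfs w)
      (hf0 w) (hfG w) (lam w) N₀ ε j hl hN0 hNw hε hΓ
    rw [hQ] at key
    have e1 : ∫ x, Real.exp (2 / d * h w x) * ∑ i, f w i x ^ 2 =
        ∫ x, win_fn ω c w (ρ x) ^ 2 * ρ x ^ (1 + 2 / (d:ℝ)) := by
      refine integral_congr_ae (Eventually.of_forall fun x => ?_)
      simp only
      rw [hfsum]
      by_cases hx : x ∈ Ω w
      · rw [hhΩ w x hx, Real.rpow_add hx.1, Real.rpow_one, Real.rpow_def_of_pos hx.1,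
          mul_comm (Real.log (ρ x)) (2 / (d:ℝ))]
        ring
      · have : win_fn ω c w (ρ x) = 0 := by
          by_cases h0 : 0 < ρ x
          · refine win_fn_zero (not_lt.1 fun h1 => hx ⟨h0, h1⟩)
          · exact win_fn_nonpos (not_lt.1 h0)
        rw [this]; simp
    have hcw : Continuous fun x => win_fn ω c w (ρ x) :=
      (win_fn_contDiff c hω w).continuous.comp hρc
    have i1 : Integrable fun x => 5 * (win_fn ω c w (ρ x) ^ 2 * ρ x) :=
      (((hcw.pow 2).mul hρc).integrable_of_hasCompactSupport hρs.mul_left).const_mul _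
    have e2 : 5 * (∫ x, ∑ i, f w i x ^ 2) - ∫ x, ind w x * ρ x =
        ∫ x, (5 * win_fn ω c w (ρ x) ^ 2 - ind w x) * ρ x := by
      simp only [hfsum]
      rw [← integral_const_mul, ← integral_sub i1 hindi]
      refine integral_congr_ae (Eventually.of_forall fun x => ?_)
      simp only
      ring
    rw [e1, e2] at key
    refine le_trans (le_of_eq ?_) key
    simp only [ha, hlam]
    ring
  -- integrability
  have hcw : ∀ w, Continuous fun x => win_fn ω c w (ρ x) := fun w =>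
    (win_fn_contDiff c hω w).continuous.comp hρc
  have hpc : Continuous fun x => ρ x ^ (1 + 2 / (d:ℝ)) :=
    hρc.rpow_const fun x => Or.inr (by positivity)
  have hps : HasCompactSupport fun x => ρ x ^ (1 + 2 / (d:ℝ)) := by
    refine hρs.comp_left (g := fun r : ℝ => r ^ (1 + 2 / (d:ℝ))) ?_
    exact Real.zero_rpow (by positivity)
  have hpi : Integrable fun x => ρ x ^ (1 + 2 / (d:ℝ)) := hpc.integrable_of_hasCompactSupport hps
  have j1 : ∀ w, Integrable fun x => win_fn ω c w (ρ x) ^ 2 * ρ x ^ (1 + 2 / (d:ℝ)) := fun w =>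
    (((hcw w).pow 2).mul hpc).integrable_of_hasCompactSupport hps.mul_left
  have j2 : ∀ w, Integrable fun x => (5 * win_fn ω c w (ρ x) ^ 2 - ind w x) * ρ x := fun w => by
    have h1 : Integrable (indicator {x | |Real.log (ρ x) / ω - c + w| < 1} ρ) :=
      hρi.indicator (hind_set w)
    have h2 : Integrable fun x => ind w x * ρ x := by
      refine h1.congr (Eventually.of_forall fun x => ?_)
      simp only [hind, indicator, mem_ofPred_eq]
      split_ifs <;> simp
    have h3 : Integrable fun x => 5 * (win_fn ω c w (ρ x) ^ 2 * ρ x) :=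
      ((((hcw w).pow 2).mul hρc).integrable_of_hasCompactSupport hρs.mul_left).const_mul _
    refine (h3.sub h2).congr (Eventually.of_forall fun x => ?_)
    simp only [Pi.sub_apply]
    ring
  have i3 : ∀ (F : (Fin d → ℝ) → ℝ), Continuous F → HasCompactSupport F →
      Integrable fun x => F x ^ 2 := fun F hF hFc =>
    (hF.pow 2).integrable_of_hasCompactSupport (by
      have := hFc.mul_right (f' := F)
      simpa only [sq] using this)
  have j3 : ∀ w, Integrable fun x => ∑ k, ∑ i, LTd.pd k (f w i) x ^ 2 := fun w =>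
    integrable_finsetSum _ fun k _ => integrable_finsetSum _ fun i _ =>
      i3 _ (LTd.pd_basic (hfC w i) (hfs w i) k).1 (LTd.pd_basic (hfC w i) (hfs w i) k).2
  have j4 : Integrable fun x => ∑ k, ∑ i, LTd.pd k (F i) x ^ 2 :=
    integrable_finsetSum _ fun k _ => integrable_finsetSum _ fun i _ =>
      i3 _ (LTd.pd_basic (hF i) (hFc i) k).1 (LTd.pd_basic (hF i) (hFc i) k).2
  -- the sum for `M` windows
  have hM : ∀ M : ℕ, 1 ≤ M →
      2 * π * d / Real.exp 1 * (1 + ε) *
        ((∫ x, ρ x ^ (1 + 2 / (d:ℝ))) - a (M - 1) * ∫ x, ρ x) -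
        4 * π / Real.exp 1 * (a (M - 1) * ∫ x, ρ x) ≤
      (1 + 4 * C ^ 2 / d) * ∫ x, ∑ k, ∑ i, LTd.pd k (F i) x ^ 2 := by
    intro M hM1
    have hsum := Finset.sum_le_sum fun w (_ : w ∈ Finset.range M) => hwin w
    rw [Finset.sum_add_distrib, ← Finset.mul_sum, ← Finset.mul_sum,
      ← integral_finsetSum _ fun w _ => j1 w, ← integral_finsetSum _ fun w _ => j3 w] at hsum
    have e1 : ∑ w ∈ Finset.range M, a w * ∫ x, (5 * win_fn ω c w (ρ x) ^ 2 - ind w x) * ρ x =
        ∫ x, ∑ w ∈ Finset.range M, a w * ((5 * win_fn ω c w (ρ x) ^ 2 - ind w x) * ρ x) := by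
      rw [integral_finsetSum _ fun w _ => (j2 w).const_mul _]
      exact Finset.sum_congr rfl fun w _ => (integral_const_mul _ _).symm
    rw [e1] at hsum
    -- right-hand side
    have hR : ∫ x, ∑ w ∈ Finset.range M, ∑ k, ∑ i, LTd.pd k (f w i) x ^ 2 ≤
        (1 + 4 * C ^ 2 / d) * ∫ x, ∑ k, ∑ i, LTd.pd k (F i) x ^ 2 := by
      rw [← integral_const_mul]
      refine integral_mono (integrable_finsetSum _ fun w _ => j3 w) (j4.const_mul _) fun x => ?_
      have hx : ∑ i, F i x ^ 2 ≤ Real.exp (ω * c) := by rw [hexpc]; exact hρR x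
      have := local_err hF hω hC x hx M
      rw [hωω] at this
      exact this
    refine le_trans ?_ (hsum.trans hR)
    -- left-hand side
    have hA : (∫ x, ρ x ^ (1 + 2 / (d:ℝ))) - a (M - 1) * ∫ x, ρ x ≤
        ∫ x, ∑ w ∈ Finset.range M, win_fn ω c w (ρ x) ^ 2 * ρ x ^ (1 + 2 / (d:ℝ)) := by
      rw [← integral_const_mul, ← integral_sub hpi (hρi.const_mul _)]
      refine integral_mono (hpi.sub (hρi.const_mul _))
        (integrable_finsetSum _ fun w _ => j1 w) fun x => ?_
      show ρ x ^ (1 + 2 / (d:ℝ)) - a (M - 1) * ρ x ≤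
        ∑ w ∈ Finset.range M, win_fn ω c w (ρ x) ^ 2 * ρ x ^ (1 + 2 / (d:ℝ))
      rw [← Finset.sum_mul]
      have hax : 0 < a (M - 1) := Real.exp_pos _
      rcases (hρ0 x).lt_or_eq with hr | hr
      · have hl : Real.log (ρ x) ≤ ω * c := by
          rw [hωc]; exact Real.log_le_log hr (hρR x)
        have hp0 : 0 ≤ ρ x ^ (1 + 2 / (d:ℝ)) := Real.rpow_nonneg (hρ0 x) _
        rcases mass_sum hω hr hl M with h1 | ⟨h1, h2⟩
        · rw [h1, one_mul]
          have : 0 ≤ a (M - 1) * ρ x := by positivity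
          linarith
        · have h3 : ρ x ^ (1 + 2 / (d:ℝ)) ≤ a (M - 1) * ρ x := by
            rw [Real.rpow_add hr, Real.rpow_one, mul_comm]
            refine mul_le_mul_of_nonneg_right ?_ hr.le
            rw [Real.rpow_def_of_pos hr]
            simp only [ha]
            refine Real.exp_le_exp.2 ?_
            rw [mul_comm]
            exact mul_le_mul_of_nonneg_left h2 (by positivity)
          have h4 : 0 ≤ (∑ w ∈ Finset.range M, win_fn ω c w (ρ x) ^ 2) *
            ρ x ^ (1 + 2 / (d:ℝ)) := mul_nonneg h1 hp0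
          linarith
      · rw [← hr, Real.zero_rpow (by positivity)]
        simp
    have hB : -(a (M - 1) * ∫ x, ρ x) ≤ ∫ x, ∑ w ∈ Finset.range M,
        a w * ((5 * win_fn ω c w (ρ x) ^ 2 - ind w x) * ρ x) := by
      rw [← integral_const_mul, ← integral_neg]
      refine integral_mono (hρi.const_mul _).neg
        (integrable_finsetSum _ fun w _ => (j2 w).const_mul _) fun x => ?_
      show -(a (M - 1) * ρ x) ≤ ∑ w ∈ Finset.range M,
        a w * ((5 * win_fn ω c w (ρ x) ^ 2 - ind w x) * ρ x)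
      have e2 : ∑ w ∈ Finset.range M, a w * ((5 * win_fn ω c w (ρ x) ^ 2 - ind w x) * ρ x) =
          (∑ w ∈ Finset.range M, a w * (5 * win_fn ω c w (ρ x) ^ 2 - ind w x)) * ρ x := by
        rw [Finset.sum_mul]
        exact Finset.sum_congr rfl fun w _ => by ring
      rw [e2]
      rcases (hρ0 x).lt_or_eq with hr | hr
      · have hl : Real.log (ρ x) ≤ ω * c := by
          rw [hωc]; exact Real.log_le_log hr (hρR x)
        have h1 := mass_cmp hω (by positivity : (0:ℝ) < 2 / d) hdω hr hl M hM1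
        have h2 := mul_le_mul_of_nonneg_right h1 hr.le
        rw [neg_mul] at h2
        exact h2
      · rw [← hr]
        simp
    have c1 : 0 ≤ 2 * π * d / Real.exp 1 * (1 + ε) := by positivity
    have c2 : 0 ≤ 4 * π / Real.exp 1 := by positivity
    have h1 := mul_le_mul_of_nonneg_left hA c1
    have h2 := mul_le_mul_of_nonneg_left hB c2
    linarith
  -- the limit
  have hlim : Tendsto (fun M : ℕ => a M) atTop (𝓝 0) := by
    simp only [ha]
    refine Real.tendsto_exp_atBot.comp ?_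
    have h1 : Tendsto (fun w : ℕ => c - (w : ℝ)) atTop atBot := by
      simp only [sub_eq_add_neg]
      exact tendsto_atBot_add_const_left _ _
        (tendsto_neg_atTop_atBot.comp tendsto_natCast_atTop_atTop)
    exact (h1.const_mul_atBot hω).const_mul_atBot (by positivity : (0:ℝ) < 2 / d)
  have hlim2 : Tendsto (fun M : ℕ => 2 * π * d / Real.exp 1 * (1 + ε) *
        ((∫ x, ρ x ^ (1 + 2 / (d:ℝ))) - a M * ∫ x, ρ x) -
        4 * π / Real.exp 1 * (a M * ∫ x, ρ x)) atTop
      (𝓝 (2 * π * d / Real.exp 1 * (1 + ε) *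
        ((∫ x, ρ x ^ (1 + 2 / (d:ℝ))) - 0 * ∫ x, ρ x) -
        4 * π / Real.exp 1 * (0 * ∫ x, ρ x))) :=
    (((hlim.mul_const _).const_sub _).const_mul _).sub ((hlim.mul_const _).const_mul _)
  have hfin := le_of_tendsto' hlim2 fun M => by
    have := hM (M + 1) (by omega)
    rwa [Nat.add_sub_cancel] at this
  simpa using hfin

end Pool.Agent.L7h99.LS
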