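import Pool.Agent.L7h99.LS.Heat

set_option autoImplicit false

/-!
# The bound of the last chain by the mass and the volume
-/

open MeasureTheory Set Filter Topology Real
open scoped ENNReal

namespace Pool.Agent.L7h99.LS

theorem cs_lintegral {X : Type} [MeasurableSpace X] (μ : Measure X) {f g : X → ℝ≥0∞}
    (hf : Measurable f) (hg : Measurable g) :
    (∫⁻ x, f x * g x ∂μ) ^ 2 ≤ (∫⁻ x, f x ^ 2 ∂μ) * ∫⁻ x, g x ^ 2 ∂μ := by
  have h := ENNReal.lintegral_mul_le_Lp_mul_Lq μ (p := 2) (q := 2) Real.HolderConjugate.two_two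
    hf.aemeasurable hg.aemeasurable
  have h2 := pow_le_pow_left₀ (zero_le) h 2
  refine h2.trans (le_of_eq ?_)
  rw [mul_pow, ← ENNReal.rpow_natCast, ← ENNReal.rpow_natCast, ← ENNReal.rpow_mul,
    ← ENNReal.rpow_mul]
  norm_num

variable {d : ℕ}

theorem G_sq {s : ℝ} (hs : 0 < s) (z : Fin d → ℝ) :
    G (s / 2) z * G (s / 2) z = ((√(4 * π * s))⁻¹) ^ d * G (s / 4) z := by
  unfold G
  rw [← Finset.prod_mul_distrib]
  have : ((√(4 * π * s))⁻¹) ^ d = ∏ _i : Fin d, (√(4 * π * s))⁻¹ := by simp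
  rw [this, ← Finset.prod_mul_distrib]
  refine Finset.prod_congr rfl fun i _ => ?_
  have e1 : (√(4 * π * (s / 2)))⁻¹ * (√(4 * π * (s / 2)))⁻¹ =
      (√(4 * π * s))⁻¹ * (√(4 * π * (s / 4)))⁻¹ := by
    rw [← mul_inv, ← mul_inv, Real.mul_self_sqrt (by positivity)]
    have e2 : (4 * π * s) = (4 * π * (s / 4)) * 2 ^ 2 := by ring
    have e3 : √(4 * π * s) = √(4 * π * (s / 4)) * 2 := by
      rw [e2, Real.sqrt_mul (by positivity), Real.sqrt_sq (by norm_num)]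
    rw [e3]
    congr 1
    calc 4 * π * (s / 2) = (4 * π * (s / 4)) * 2 := by ring
      _ = (√(4 * π * (s / 4)) * √(4 * π * (s / 4))) * 2 := by
        rw [Real.mul_self_sqrt (by positivity)]
      _ = _ := by ring
  have e4 : Real.exp (-(z i ^ 2 / (4 * (s / 2)))) * Real.exp (-(z i ^ 2 / (4 * (s / 2)))) =
      Real.exp (-(z i ^ 2 / (4 * (s / 4)))) := by
    rw [← Real.exp_add]
    congr 1
    field_simp
    ring
  calc _ = ((√(4 * π * (s / 2)))⁻¹ * (√(4 * π * (s / 2)))⁻¹) *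
      (Real.exp (-(z i ^ 2 / (4 * (s / 2)))) * Real.exp (-(z i ^ 2 / (4 * (s / 2))))) := by ring
    _ = _ := by rw [e1, e4]; ring

theorem E_conv (hS : P_SEMI) {τ : ℝ} (hτ : 0 < τ) (x y : Fin d → ℝ) :
    ∫⁻ z, E τ x z * E τ z y = E (2 * τ) x y := by
  rw [two_mul]
  exact (hS d τ τ hτ hτ x y).1

theorem E_le {τ : ℝ} (hτ : 0 < τ) (x y : Fin d → ℝ) :
    E τ x y ≤ ENNReal.ofReal (((√(4 * π * τ))⁻¹) ^ d) :=
  ENNReal.ofReal_le_ofReal (G_le hτ (x - y))

theorem E_sq {s : ℝ} (hs : 0 < s) (x y : Fin d → ℝ) : E (s / 2) x y * E (s / 2) y x =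
      ENNReal.ofReal (((√(4 * π * s))⁻¹) ^ d) * E (s / 4) x y := by
  rw [E_symm (s / 2) y x]
  unfold E
  rw [← ENNReal.ofReal_mul (G_nonneg _ _), G_sq hs, ENNReal.ofReal_mul (by positivity)]

attribute [local irreducible] G E

/-- The heat form. -/
noncomputable def BB (μ : Measure (Fin d → ℝ)) (f : (Fin d → ℝ) → ℝ≥0∞) (τ : ℝ) : ℝ≥0∞ :=
  ∫⁻ x, ∫⁻ y, f x * (E τ x y * f y) ∂μ ∂μ

theorem BB_sq (hS : P_SEMI) (Ω : Set (Fin d → ℝ)) {f : (Fin d → ℝ) → ℝ≥0∞}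
    (hf : Measurable f) {τ : ℝ} (hτ : 0 < τ) :
    BB (volume.restrict Ω) f τ ^ 2 ≤
      (∫⁻ x in Ω, f x ^ 2) * BB (volume.restrict Ω) f (2 * τ) := by
  set μ := (volume.restrict Ω : Measure (Fin d → ℝ))
  have hE : Measurable fun p : (Fin d → ℝ) × (Fin d → ℝ) => E τ p.1 p.2 := E_meas τ
  have hg : Measurable fun x => ∫⁻ y, E τ x y * f y ∂μ := by
    refine Measurable.lintegral_prod_right' (f := fun p : (Fin d → ℝ) × (Fin d → ℝ) =>
      E τ p.1 p.2 * f p.2) ?_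
    exact hE.mul (hf.comp measurable_snd)
  have hEx : ∀ x, Measurable fun y => E τ x y * f y := fun x =>
    (hE.comp (measurable_const.prodMk measurable_id)).mul hf
  have e1 : BB μ f τ = ∫⁻ x, f x * ∫⁻ y, E τ x y * f y ∂μ ∂μ := by
    unfold BB
    exact lintegral_congr fun x => lintegral_const_mul _ (hEx x)
  rw [e1]
  refine (cs_lintegral μ hf hg).trans ?_
  refine mul_le_mul_right ?_ _
  have e2 : ∀ x, (∫⁻ y, E τ x y * f y ∂μ) ^ 2 =
      ∫⁻ y, ∫⁻ z, f y * (E τ y x * E τ x z * f z) ∂μ ∂μ := by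
    intro x
    rw [sq, ← lintegral_mul_const _ (hEx x)]
    refine lintegral_congr fun y => ?_
    rw [← lintegral_const_mul _ (hEx x)]
    refine lintegral_congr fun z => ?_
    rw [E_symm τ y x]
    ring
  simp only [e2]
  have hF : Measurable fun q : ((Fin d → ℝ) × (Fin d → ℝ)) × (Fin d → ℝ) =>
      f q.1.2 * (E τ q.1.2 q.1.1 * E τ q.1.1 q.2 * f q.2) := by
    have a1 : Measurable fun q : ((Fin d → ℝ) × (Fin d → ℝ)) × (Fin d → ℝ) => f q.1.2 :=
      hf.comp (by fun_prop)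
    have a2 : Measurable fun q : ((Fin d → ℝ) × (Fin d → ℝ)) × (Fin d → ℝ) => f q.2 :=
      hf.comp (by fun_prop)
    have a3 : Measurable fun q : ((Fin d → ℝ) × (Fin d → ℝ)) × (Fin d → ℝ) =>
        E τ q.1.2 q.1.1 := hE.comp (g := fun p : (Fin d → ℝ) × (Fin d → ℝ) => E τ p.1 p.2)
          (f := fun q : ((Fin d → ℝ) × (Fin d → ℝ)) × (Fin d → ℝ) => (q.1.2, q.1.1))
          (by fun_prop)
    have a4 : Measurable fun q : ((Fin d → ℝ) × (Fin d → ℝ)) × (Fin d → ℝ) =>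
        E τ q.1.1 q.2 := hE.comp (g := fun p : (Fin d → ℝ) × (Fin d → ℝ) => E τ p.1 p.2)
          (f := fun q : ((Fin d → ℝ) × (Fin d → ℝ)) × (Fin d → ℝ) => (q.1.1, q.2))
          (by fun_prop)
    exact a1.mul ((a3.mul a4).mul a2)
  rw [lintegral_lintegral_swap (by
    exact (Measurable.lintegral_prod_right' hF).aemeasurable)]
  unfold BB
  refine lintegral_mono fun y => ?_
  rw [lintegral_lintegral_swap (by
    have : Measurable fun q : (Fin d → ℝ) × (Fin d → ℝ) =>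
        f y * (E τ y q.1 * E τ q.1 q.2 * f q.2) :=
      hF.comp (g := fun q : ((Fin d → ℝ) × (Fin d → ℝ)) × (Fin d → ℝ) =>
        f q.1.2 * (E τ q.1.2 q.1.1 * E τ q.1.1 q.2 * f q.2))
        (f := fun q : (Fin d → ℝ) × (Fin d → ℝ) => ((q.1, y), q.2)) (by fun_prop)
    exact this.aemeasurable)]
  refine lintegral_mono fun z => ?_
  have hm1 : Measurable fun x => E τ y x * E τ x z :=
    (hE.comp (measurable_const.prodMk measurable_id)).mul
      (hE.comp (measurable_id.prodMk measurable_const))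
  have hm2 : Measurable fun x => E τ y x * E τ x z * f z := hm1.mul_const _
  rw [lintegral_const_mul _ hm2, lintegral_mul_const _ hm1]
  have h1 : ∫⁻ x in Ω, E τ y x * E τ x z ≤ E (2 * τ) y z := by
    exact (setLIntegral_le_lintegral _ _).trans (le_of_eq (E_conv hS hτ y z))
  gcongr

theorem BB_pow (hS : P_SEMI) (Ω : Set (Fin d → ℝ)) {f : (Fin d → ℝ) → ℝ≥0∞}
    (hf : Measurable f) (j : ℕ) : ∀ {τ : ℝ}, 0 < τ →
    BB (volume.restrict Ω) f τ ^ (2 ^ j) ≤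
      (∫⁻ x in Ω, f x ^ 2) ^ (2 ^ j - 1) * BB (volume.restrict Ω) f (2 ^ j * τ) := by
  induction j with
  | zero => intro τ _; simp
  | succ j ih =>
    intro τ hτ
    have h1 := pow_le_pow_left₀ (zero_le) (BB_sq hS Ω hf hτ) (2 ^ j)
    have h2 := ih (τ := 2 * τ) (by positivity)
    rw [pow_succ 2 j, mul_comm (2 ^ j) 2, pow_mul]
    refine h1.trans ?_
    rw [mul_pow]
    refine (mul_le_mul_right h2 _).trans (le_of_eq ?_)
    rw [← mul_assoc, ← pow_add]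
    congr 2
    · have : 1 ≤ 2 ^ j := Nat.one_le_two_pow
      omega
    · rw [pow_succ]; ring

theorem BB_le (Ω : Set (Fin d → ℝ)) {f : (Fin d → ℝ) → ℝ≥0∞}
    (hf : Measurable f) {τ : ℝ} (hτ : 0 < τ) :
    BB (volume.restrict Ω) f τ ≤
      (∫⁻ x in Ω, f x ^ 2) * (ENNReal.ofReal (((√(4 * π * τ))⁻¹) ^ d) * volume Ω) := by
  set μ := (volume.restrict Ω : Measure (Fin d → ℝ))
  have h1 : BB μ f τ ≤ ∫⁻ x, ∫⁻ y, f x * (ENNReal.ofReal (((√(4 * π * τ))⁻¹) ^ d) * f y) ∂μ ∂μ := by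
    unfold BB
    refine lintegral_mono fun x => lintegral_mono fun y => ?_
    have := E_le hτ x y
    gcongr
  refine h1.trans ?_
  have e1 : ∀ x, ∫⁻ y, f x * (ENNReal.ofReal (((√(4 * π * τ))⁻¹) ^ d) * f y) ∂μ =
      f x * (ENNReal.ofReal (((√(4 * π * τ))⁻¹) ^ d) * ∫⁻ y, f y ∂μ) := fun x => by
    rw [lintegral_const_mul _ (hf.const_mul _), lintegral_const_mul _ hf]
  simp only [e1]
  rw [lintegral_mul_const _ hf]
  have h2 := cs_lintegral μ hf (measurable_const (a := (1 : ℝ≥0∞)))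
  simp only [mul_one, one_pow, lintegral_const, one_mul] at h2
  have e3 : μ univ = volume Ω := Measure.restrict_apply_univ Ω
  rw [e3] at h2
  calc (∫⁻ x, f x ∂μ) * (ENNReal.ofReal (((√(4 * π * τ))⁻¹) ^ d) * ∫⁻ y, f y ∂μ)
      = ENNReal.ofReal (((√(4 * π * τ))⁻¹) ^ d) * (∫⁻ x, f x ∂μ) ^ 2 := by ring
    _ ≤ ENNReal.ofReal (((√(4 * π * τ))⁻¹) ^ d) * ((∫⁻ x, f x ^ 2 ∂μ) * volume Ω) := by gcongr
    _ = _ := by ring

theorem BB_final (hS : P_SEMI) (Ω : Set (Fin d → ℝ)) {f : (Fin d → ℝ) → ℝ≥0∞}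
    (hf : Measurable f) (j : ℕ) {τ : ℝ} (hτ : 0 < τ) :
    BB (volume.restrict Ω) f τ ≤ (∫⁻ x in Ω, f x ^ 2) *
      (ENNReal.ofReal (((√(4 * π * (2 ^ j * τ)))⁻¹) ^ d) * volume Ω) ^ (((2:ℝ) ^ j)⁻¹) := by
  have h1 := BB_pow hS Ω hf j hτ
  have h2 := BB_le Ω hf (τ := 2 ^ j * τ) (by positivity)
  have h3 := h1.trans (mul_le_mul_right h2 _)
  rw [← ENNReal.pow_le_pow_left_iff (n := 2 ^ j) (by positivity)]
  refine h3.trans (le_of_eq ?_)
  rw [← mul_assoc, ← pow_succ, mul_pow]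
  congr 1
  · congr 1
    have : 1 ≤ 2 ^ j := Nat.one_le_two_pow
    omega
  · rw [← ENNReal.rpow_natCast, ← ENNReal.rpow_mul]
    push_cast
    rw [inv_mul_cancel₀ (by positivity), ENNReal.rpow_one]

theorem T_one (hS : P_SEMI) (Ω : Set (Fin d → ℝ)) {s : ℝ} (hs : 0 < s) (j : ℕ)
    {h : (Fin d → ℝ) → ℝ} (hh : Measurable h) :
    T 1 _ _ (volume.restrict Ω) (fun x => ENNReal.ofReal (Real.exp (h x / 2))) (E (s / 2)) ≤
      ENNReal.ofReal (((√(4 * π * s))⁻¹) ^ d) * ((∫⁻ x in Ω, ENNReal.ofReal (Real.exp (h x))) *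
        (ENNReal.ofReal (((√(4 * π * (2 ^ j * (s / 4))))⁻¹) ^ d) * volume Ω) ^
          (((2:ℝ) ^ j)⁻¹)) := by
  set μ := (volume.restrict Ω : Measure (Fin d → ℝ))
  set f : (Fin d → ℝ) → ℝ≥0∞ := fun x => ENNReal.ofReal (Real.exp (h x / 2)) with hf
  have hfm : Measurable f := (hh.div_const _).exp.ennreal_ofReal
  have h1 := BB_final hS Ω hfm j (τ := s / 4) (by positivity)
  have e2 : ∀ x, f x ^ 2 = ENNReal.ofReal (Real.exp (h x)) := fun x => by
    simp only [hf]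
    rw [← ENNReal.ofReal_pow (Real.exp_pos _).le, ← Real.exp_nat_mul]
    congr 2
    push_cast
    ring
  simp only [e2] at h1
  refine le_trans (le_of_eq ?_) (mul_le_mul_right h1 _)
  have hE : Measurable fun p : (Fin d → ℝ) × (Fin d → ℝ) => E (s / 4) p.1 p.2 := E_meas _
  have hE2 : Measurable fun p : (Fin d → ℝ) × (Fin d → ℝ) => E (s / 2) p.1 p.2 := E_meas _
  simp only [T]
  have hm : Measurable fun p : (Fin d → ℝ) × (Fin d → ℝ) =>
      f p.1 * E (s / 2) p.1 p.2 * f p.2 * E (s / 2) p.2 p.1 :=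
    (((hfm.comp measurable_fst).mul hE2).mul (hfm.comp measurable_snd)).mul
      (hE2.comp measurable_swap)
  rw [lintegral_prod _ hm.aemeasurable]
  have hm3 : Measurable fun p : (Fin d → ℝ) × (Fin d → ℝ) => f p.1 * (E (s / 4) p.1 p.2 * f p.2) :=
    (hfm.comp measurable_fst).mul (hE.mul (hfm.comp measurable_snd))
  unfold BB
  rw [← lintegral_const_mul _ (Measurable.lintegral_prod_right' hm3)]
  refine lintegral_congr fun x => ?_
  have hm4 : Measurable fun y => f x * (E (s / 4) x y * f y) :=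
    hm3.comp (measurable_const.prodMk measurable_id)
  rw [← lintegral_const_mul _ hm4]
  refine lintegral_congr fun y => ?_
  have e3 := E_sq hs x y
  calc _ = f x * f y * (E (s / 2) x y * E (s / 2) y x) := by ring
    _ = _ := by rw [e3]; ring

end Pool.Agent.L7h99.LS
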