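import Pool.Agent.L7h99.LS.Moments
import Pool.Agent.L7h99.LS.Defs

set_option autoImplicit false

/-!
# The heat kernel in the chains
-/

open MeasureTheory Set Filter Topology Real
open scoped ENNReal

namespace Pool.Agent.L7h99.LS

theorem T_mono (l : ℕ) : ∀ (X : Type) (m : MeasurableSpace X) (μ : Measure X)
    (w w' : X → ℝ≥0∞) (κ κ' : X → X → ℝ≥0∞), (∀ x, w x ≤ w' x) → (∀ x y, κ x y ≤ κ' x y) →
    T l X m μ w κ ≤ T l X m μ w' κ' := by
  induction l with
  | zero =>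
    intro X m μ w w' κ κ' hw hκ
    simp only [T]
    exact lintegral_mono fun x => mul_le_mul' (hw x) (hκ x x)
  | succ l ih =>
    intro X m μ w w' κ κ' hw hκ
    simp only [T]
    exact ih _ _ _ _ _ _ _ (fun p => mul_le_mul' (mul_le_mul' (hw _) (hκ _ _)) (hw _))
      fun p q => hκ _ _

variable {d : ℕ}

theorem G_nonneg (τ : ℝ) (z : Fin d → ℝ) : 0 ≤ G τ z :=
  Finset.prod_nonneg fun _ _ => mul_nonneg (inv_nonneg.2 (Real.sqrt_nonneg _)) (Real.exp_pos _).le

theorem G_le {τ : ℝ} (hτ : 0 < τ) (z : Fin d → ℝ) : G τ z ≤ ((√(4 * π * τ))⁻¹) ^ d := by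
  have h : G τ z ≤ ∏ _i : Fin d, (√(4 * π * τ))⁻¹ := by
    refine Finset.prod_le_prod (fun i _ => mul_nonneg (inv_nonneg.2 (Real.sqrt_nonneg _))
      (Real.exp_pos _).le) fun i _ => ?_
    refine mul_le_of_le_one_right (inv_nonneg.2 (Real.sqrt_nonneg _)) ?_
    rw [Real.exp_le_one_iff]
    have : 0 ≤ z i ^ 2 / (4 * τ) := by positivity
    linarith
  simpa using h

theorem G_neg (τ : ℝ) (z : Fin d → ℝ) : G τ (-z) = G τ z := by
  unfold G
  simp

theorem G_symm (τ : ℝ) (x y : Fin d → ℝ) : G τ (x - y) = G τ (y - x) := by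
  rw [← G_neg, neg_sub]

theorem G_cont (τ : ℝ) : Continuous (G τ : (Fin d → ℝ) → ℝ) := by
  unfold G
  fun_prop

/-- The heat kernel with values in `[0, ∞]`. -/
noncomputable def E (τ : ℝ) (x y : Fin d → ℝ) : ℝ≥0∞ := ENNReal.ofReal (G τ (x - y))

theorem E_meas (τ : ℝ) : Measurable (Function.uncurry (E τ : (Fin d → ℝ) → (Fin d → ℝ) → ℝ≥0∞)) := by
  have : Continuous fun p : (Fin d → ℝ) × (Fin d → ℝ) => G τ (p.1 - p.2) :=
    (G_cont τ).comp (by fun_prop)
  exact this.measurable.ennreal_ofReal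

theorem E_symm (τ : ℝ) (x y : Fin d → ℝ) : E τ x y = E τ y x := by
  unfold E
  rw [G_symm]

theorem T_heat (hS : P_SEMI) (Ω : Set (Fin d → ℝ)) (l : ℕ) : ∀ (τ : ℝ), 0 < τ →
    ∀ b : (Fin d → ℝ) → ℝ≥0∞, Measurable b →
    T (l + 1) _ _ (volume.restrict Ω) b (E τ) ≤
      T 1 _ _ (volume.restrict Ω) (fun x => b x ^ (2 ^ l)) (E (2 ^ l * τ)) := by
  induction l with
  | zero =>
    intro τ hτ b hb
    simp
  | succ l ih =>
    intro τ hτ b hb
    refine (T_halve (l + 1) _ _ (volume.restrict Ω) b (E τ) hb (E_meas τ)).trans ?_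
    have h1 : ∀ x y : Fin d → ℝ, ∫⁻ z in Ω, E τ x z * E τ z y ≤ E (2 * τ) x y := by
      intro x y
      refine (setLIntegral_le_lintegral _ _).trans (le_of_eq ?_)
      have := (hS d τ τ hτ hτ x y).1
      rw [two_mul]
      exact this
    refine (T_mono (l + 1) _ _ (volume.restrict Ω) _ _ _ _ (fun x => le_rfl) h1).trans ?_
    refine (ih (2 * τ) (by positivity) _ (hb.pow_const 2)).trans (le_of_eq ?_)
    congr 1
    · funext x
      rw [← pow_mul, pow_succ 2 l, mul_comm]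
    · rw [pow_succ (2:ℝ) l, mul_assoc]

/-- The trace bound for `√b G √b`. -/
theorem T_bound (hS : P_SEMI) (Ω : Set (Fin d → ℝ)) (l : ℕ) (s : ℝ) (hs : 0 < s)
    (h : (Fin d → ℝ) → ℝ) (hh : Measurable h) :
    T (l + 1) _ _ (volume.restrict Ω) (fun _ => 1) (fun x y =>
      ENNReal.ofReal (Real.exp (h x / (2 * 2 ^ (l + 1))) *
        (G (s / 2 ^ (l + 1)) (x - y) * Real.exp (h y / (2 * 2 ^ (l + 1)))))) ≤
    T 1 _ _ (volume.restrict Ω) (fun x => ENNReal.ofReal (Real.exp (h x / 2))) (E (s / 2)) := by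
  set c : (Fin d → ℝ) → ℝ≥0∞ := fun x => ENNReal.ofReal (Real.exp (h x / (2 * 2 ^ (l + 1))))
    with hc
  have e1 : (fun x y : Fin d → ℝ => ENNReal.ofReal (Real.exp (h x / (2 * 2 ^ (l + 1))) *
        (G (s / 2 ^ (l + 1)) (x - y) * Real.exp (h y / (2 * 2 ^ (l + 1)))))) =
      fun x y => c x * (E (s / 2 ^ (l + 1)) x y * c y) := by
    funext x y
    rw [ENNReal.ofReal_mul (Real.exp_pos _).le, ENNReal.ofReal_mul (G_nonneg _ _)]
    rfl
  rw [e1, T_left (l + 1) _ _ (volume.restrict Ω) (fun _ => 1) c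
      (fun x y => E (s / 2 ^ (l + 1)) x y * c y),
    T_right (l + 1) _ _ (volume.restrict Ω) _ c (E (s / 2 ^ (l + 1)))]
  have hcm : Measurable c := (hh.div_const _).exp.ennreal_ofReal
  refine (T_heat hS Ω l (s / 2 ^ (l + 1)) (by positivity) _
    ((measurable_const.mul hcm).mul hcm)).trans (le_of_eq ?_)
  congr 1
  · funext x
    simp only [one_mul, hc, Pi.mul_apply]
    rw [← ENNReal.ofReal_mul (Real.exp_pos _).le, ← Real.exp_add,
      ← ENNReal.ofReal_pow (Real.exp_pos _).le, ← Real.exp_nat_mul]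
    congr 2
    push_cast
    rw [pow_succ]
    field_simp
    ring
  · congr 1
    rw [pow_succ]
    field_simp

end Pool.Agent.L7h99.LS
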