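import Pool.Agent.L7h99.LS.Final
import Pool.Agent.L7h76.LS.Low
import Pool.Agent.L7h76.LS.Semi
import Pool.Agent.L7h76.LS.Num

set_option autoImplicit false

/-!
# The kinetic inequality for families of bounded mass
-/

open MeasureTheory Set Filter Topology Real
open scoped ENNReal

namespace Pool.Agent.L7h99.LS

/-- The choice of the parameters, with a gain. -/
theorem num2 (C : ℝ) (hC : 0 ≤ C) : ∃ c : ℝ, 0 < c ∧ ∃ d₀ : ℕ, 4 ≤ d₀ ∧ ∀ d : ℕ, d₀ ≤ d →
    ∀ N : ℝ, 1 ≤ N → N ≤ (c * d / Real.log d) ^ ((d : ℝ) / 2) → ∃ (j : ℕ) (ε : ℝ), 0 ≤ ε ∧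
      6 + 3 / 2 * d * ε ≤
        ((d : ℝ) / 2 * Real.log (2 ^ j * Real.exp 1 / 4) - Real.log N - √d) / 2 ^ j ∧
      LTd.Kcl d * (1 + C / d) * (1 + c * N ^ (-(2 / (d : ℝ)))) ≤
        2 * π * d / Real.exp 1 * (1 + ε) := by
  set c : ℝ := 1 / (32 * (3 * C + 33)) with hc
  have hc0 : 0 < c := by positivity
  set R : ℝ := 4 * (C + 8) + 4 with hR
  have hR4 : 4 ≤ R := by
    have : 0 ≤ 4 * (C + 8) := by positivity
    linarith
  obtain ⟨d₀, hd₀⟩ := exists_nat_ge (R ^ 2)
  have hd₀4 : 4 ≤ d₀ := by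
    have : (4 : ℝ) ≤ d₀ := by nlinarith
    exact_mod_cast this
  refine ⟨c, hc0, d₀, hd₀4, ?_⟩
  intro d hd N hN hNle
  have hN0 : 0 < N := by linarith
  have hdR : R ^ 2 ≤ d := hd₀.trans (by exact_mod_cast hd)
  have hd16 : (16 : ℝ) ≤ d := by nlinarith
  have hd0 : (0 : ℝ) < d := by linarith
  have hs : R ≤ √d := Real.le_sqrt_of_sq_le hdR
  have hs0 : 0 < √(d : ℝ) := Real.sqrt_pos.2 hd0
  have hss : √(d : ℝ) * √d = d := Real.mul_self_sqrt hd0.le
  have hlog1 : 1 ≤ Real.log d := by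
    rw [Real.le_log_iff_exp_le hd0]
    have := Real.exp_one_lt_d9
    linarith
  have hlog2 : Real.log d ≤ 2 * √d := by
    have h1 := Real.log_le_sub_one_of_pos hs0
    have h2 : Real.log d = 2 * Real.log √d := by
      rw [Real.log_sqrt hd0.le]; ring
    linarith
  set L := Real.log (d : ℝ) with hL
  have hLpos : 0 < L := by linarith
  set X : ℝ := N ^ (2 / (d : ℝ)) with hX
  have hX1 : 1 ≤ X := Real.one_le_rpow hN (by positivity)
  have hX0 : 0 < X := by linarith
  have hXlog : (d : ℝ) / 2 * Real.log X = Real.log N := by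
    rw [hX, Real.log_rpow hN0]
    field_simp
  have hcd : 0 < c * d / L := by positivity
  have hXle : X ≤ c * d / L := by
    have h1 := Real.rpow_le_rpow hN0.le hNle (by positivity : (0:ℝ) ≤ 2 / d)
    rw [← Real.rpow_mul hcd.le] at h1
    have h2 : (d : ℝ) / 2 * (2 / d) = 1 := by field_simp
    rwa [h2, Real.rpow_one] at h1
  have hXinv : N ^ (-(2 / (d : ℝ))) = 1 / X := by
    rw [Real.rpow_neg hN0.le, one_div]
  have hXL : X * L ≤ c * d := by
    rwa [le_div_iff₀ hLpos] at hXle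
  obtain ⟨j, hj1, hj2⟩ := Pool.Agent.L7h76.LS.exists_pow_between (T := 8 * X) (by linarith)
  have hE1 : 2 * (C + 8) * L / d ≤ 1 := by
    rw [div_le_one hd0]
    have h2 : 4 * (C + 8) ≤ √d := by linarith
    calc 2 * (C + 8) * L ≤ 2 * (C + 8) * (2 * √d) := by gcongr
      _ = 4 * (C + 8) * √d := by ring
      _ ≤ √d * √d := by gcongr
      _ = d := hss
  refine ⟨j, 2 * (C + 8) * L / d + 2 * c / X, by positivity, ?_, ?_⟩
  · have hpj : (0 : ℝ) < 2 ^ j := by positivity
    have h2 : Real.log X + 1 + Real.log 2 ≤ Real.log (2 ^ j * Real.exp 1 / 4) := by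
      have h3 : Real.log X + 1 + Real.log 2 = Real.log (X * Real.exp 1 * 2) := by
        rw [Real.log_mul (by positivity) (by norm_num), Real.log_mul hX0.ne' (Real.exp_ne_zero _),
          Real.log_exp]
      rw [h3]
      apply Real.log_le_log (by positivity)
      have he := Real.exp_pos 1
      calc X * Real.exp 1 * 2 = 8 * X * Real.exp 1 / 4 := by ring
        _ ≤ 2 ^ j * Real.exp 1 / 4 := by gcongr
    have hl2 : 1 / 2 ≤ Real.log 2 := by
      have := Real.log_two_gt_d9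
      linarith
    have h3 : (d : ℝ) / 2 ≤
        (d : ℝ) / 2 * Real.log (2 ^ j * Real.exp 1 / 4) - Real.log N - √d := by
      have h4 : (d : ℝ) / 2 * (Real.log X + 1 + Real.log 2) ≤
          (d : ℝ) / 2 * Real.log (2 ^ j * Real.exp 1 / 4) :=
        mul_le_mul_of_nonneg_left h2 (by positivity)
      have h5 : √(d : ℝ) ≤ (d : ℝ) / 2 * Real.log 2 := by
        have h6 : 4 ≤ √(d : ℝ) := hR4.trans hs
        have h7 : (d : ℝ) / 2 * (1 / 2) ≤ (d : ℝ) / 2 * Real.log 2 :=
          mul_le_mul_of_nonneg_left hl2 (by positivity)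
        nlinarith
      have h6 : (d : ℝ) / 2 * (Real.log X + 1 + Real.log 2) =
          Real.log N + d / 2 + (d : ℝ) / 2 * Real.log 2 := by
        rw [← hXlog]; ring
      linarith
    rw [le_div_iff₀ hpj]
    refine le_trans ?_ h3
    have h5 : 6 + 3 / 2 * (d : ℝ) * (2 * (C + 8) * L / d + 2 * c / X) =
        6 + 3 * (C + 8) * L + 3 * c * d / X := by
      field_simp
      ring
    rw [h5]
    have h6 : 6 + 3 * (C + 8) * L ≤ (3 * C + 30) * L := by nlinarith
    have h7 : 0 ≤ 3 * c * d / X := by positivity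
    calc (6 + 3 * (C + 8) * L + 3 * c * d / X) * 2 ^ j
        ≤ ((3 * C + 30) * L + 3 * c * d / X) * (2 * (8 * X)) := by
          apply mul_le_mul (by linarith) hj2 hpj.le (by positivity)
      _ = (3 * C + 30) * 16 * (X * L) + 48 * (c * d) := by field_simp; ring
      _ ≤ (3 * C + 30) * 16 * (c * d) + 48 * (c * d) := by gcongr
      _ = (16 * (3 * C + 33) * c) * d := by ring
      _ = (d : ℝ) / 2 := by rw [hc]; field_simp; norm_num
  · have hd4 : 4 ≤ d := hd₀4.trans hd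
    have h1 := Pool.Agent.L7h76.LS.Kcl_le hd4
    rw [← hL] at h1
    set s : ℝ := (4 + 4 * L) / d + C / d with hsdef
    have hs1 : s ≤ (C + 8) * L / d := by
      rw [hsdef, ← add_div]
      gcongr
      nlinarith
    have hs00 : 0 ≤ s := by positivity
    have hs2 : s ≤ 1 := by
      refine hs1.trans ?_
      have : (C + 8) * L / d ≤ 2 * (C + 8) * L / d := by
        gcongr
        linarith
      linarith
    have hexp : Real.exp s ≤ 1 + 2 * s := by
      have h2 := Real.exp_bound' hs00 hs2 (n := 2) (by norm_num)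
      norm_num [Finset.sum_range_succ] at h2
      nlinarith
    rw [hXinv]
    have hcX : 0 ≤ c * (1 / X) := by positivity
    calc LTd.Kcl d * (1 + C / d) * (1 + c * (1 / X))
        ≤ 2 * π * d / Real.exp 1 * Real.exp ((4 + 4 * L) / d) * Real.exp (C / d) *
          (1 + c * (1 / X)) := by
          have h2 := Real.add_one_le_exp (C / (d : ℝ))
          refine mul_le_mul_of_nonneg_right ?_ (by positivity)
          apply mul_le_mul h1 (by linarith) (by positivity) (by positivity)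
      _ = 2 * π * d / Real.exp 1 * (Real.exp s * (1 + c * (1 / X))) := by
          rw [hsdef, Real.exp_add]; ring
      _ ≤ 2 * π * d / Real.exp 1 * (1 + (2 * (C + 8) * L / d + 2 * c / X)) := by
          refine mul_le_mul_of_nonneg_left ?_ (by positivity)
          have h4 : Real.exp s ≤ 1 + 2 * (C + 8) * L / d := by
            have : 2 * (C + 8) * L / d = 2 * ((C + 8) * L / d) := by ring
            rw [this]
            linarith
          calc Real.exp s * (1 + c * (1 / X)) ≤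
              (1 + 2 * (C + 8) * L / d) * (1 + c * (1 / X)) := by gcongr
            _ = 1 + 2 * (C + 8) * L / d + c * (1 / X) +
                (2 * (C + 8) * L / d) * (c * (1 / X)) := by ring
            _ ≤ 1 + 2 * (C + 8) * L / d + c * (1 / X) + 1 * (c * (1 / X)) := by gcongr
            _ = _ := by ring

theorem core_all : ∃ c : ℝ, 0 < c ∧ ∃ d₀ : ℕ, 4 ≤ d₀ ∧ ∀ d : ℕ, d₀ ≤ d → ∀ N₀ : ℝ, 1 ≤ N₀ →
    N₀ ≤ (c * d / Real.log d) ^ ((d : ℝ) / 2) →
    Core d ((1 + c * N₀ ^ (-(2 / (d : ℝ)))) * LTd.Kcl d) N₀ := by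
  obtain ⟨C, hC0, hC⟩ := dang_bdd
  obtain ⟨c, hc, d₀, hd₀, H⟩ := num2 (4 * C ^ 2) (by positivity)
  refine ⟨c, hc, d₀, hd₀, fun d hd N₀ hN1 hN => ?_⟩
  obtain ⟨j, ε, hε, hΓ, hK⟩ := H d hd N₀ hN1 hN
  intro n F hF hFc hG hm
  have h4 : 4 ≤ d := hd₀.trans hd
  have key := main_bound Pool.Agent.L7h76.LS.t_SEMI Pool.Agent.L7h76.LS.t_LOW hC h4 N₀
    (by linarith) ε hε j hΓ n F hF hFc hG hm
  have hpos : 0 < 1 + 4 * C ^ 2 / (d : ℝ) := by positivity
  have hI : 0 ≤ ∫ x, (∑ i, F i x ^ 2) ^ (1 + 2 / (d : ℝ)) := integral_nonneg fun x =>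
    Real.rpow_nonneg (Finset.sum_nonneg fun i _ => sq_nonneg _) _
  have h1 := (mul_le_mul_of_nonneg_right hK hI).trans key
  have h2 : (1 + 4 * C ^ 2 / (d : ℝ)) * ((1 + c * N₀ ^ (-(2 / (d : ℝ)))) * LTd.Kcl d *
      ∫ x, (∑ i, F i x ^ 2) ^ (1 + 2 / (d : ℝ))) ≤
      (1 + 4 * C ^ 2 / (d : ℝ)) * ∫ x, ∑ k, ∑ i, LTd.pd k (F i) x ^ 2 := by
    refine le_trans (le_of_eq ?_) h1
    ring
  exact le_of_mul_le_mul_left h2 hpos

end Pool.Agent.L7h99.LS
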