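import Pool.Agent.L7h99.LS.Chain

set_option autoImplicit false

/-!
# Moments of a kernel on a family with Gram matrix at most one
-/

open MeasureTheory Set Filter
open scoped ENNReal

namespace Pool.Agent.L7h99.LS

variable {X : Type} [MeasurableSpace X]

/-- Nonnegative bounded symmetric kernels. -/
structure Ker (k : X → X → ℝ) (M : ℝ) : Prop where
  meas : Measurable (Function.uncurry k)
  nonneg : ∀ x y, 0 ≤ k x y
  le : ∀ x y, k x y ≤ M
  symm : ∀ x y, k x y = k y x

/-- Bounded measurable functions. -/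
structure Bd (f : X → ℝ) (C : ℝ) : Prop where
  meas : Measurable f
  le : ∀ x, |f x| ≤ C

theorem Bd.integrable {μ : Measure X} [IsFiniteMeasure μ] {f : X → ℝ} {C : ℝ} (h : Bd f C) :
    Integrable f μ :=
  Integrable.of_bound h.meas.aestronglyMeasurable C (Eventually.of_forall fun x => by
    rw [Real.norm_eq_abs]; exact h.le x)

theorem Bd.mul {f g : X → ℝ} {C D : ℝ} (hf : Bd f C) (hg : Bd g D) :
    Bd (fun x => f x * g x) (C * D) :=
  ⟨hf.meas.mul hg.meas, fun x => by
    rw [abs_mul]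
    exact mul_le_mul (hf.le x) (hg.le x) (abs_nonneg _) ((abs_nonneg _).trans (hf.le x))⟩

theorem Ker.bd {k : X → X → ℝ} {M : ℝ} (hk : Ker k M) : Bd (Function.uncurry k) M :=
  ⟨hk.meas, fun p => by
    rw [Function.uncurry, abs_of_nonneg (hk.nonneg _ _)]; exact hk.le _ _⟩

theorem Bd.comp {Y : Type} [MeasurableSpace Y] {f : X → ℝ} {C : ℝ} (hf : Bd f C) {g : Y → X}
    (hg : Measurable g) : Bd (fun y => f (g y)) C :=
  ⟨hf.meas.comp hg, fun y => hf.le (g y)⟩

theorem Bd.int {μ : Measure X} [IsFiniteMeasure μ] {Y : Type} [MeasurableSpace Y]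
    {f : Y → X → ℝ} {C : ℝ} (hf : Bd (Function.uncurry f) C) :
    Bd (fun y => ∫ x, f y x ∂μ) (C * μ.real univ) := by
  refine ⟨?_, fun y => ?_⟩
  · exact (hf.meas.stronglyMeasurable.integral_prod_right (ν := μ)).measurable
  · have h := norm_integral_le_of_norm_le_const (μ := μ) (f := f y) (C := C)
      (Eventually.of_forall fun x => by
        rw [Real.norm_eq_abs]; exact hf.le (y, x))
    rwa [Real.norm_eq_abs] at h

/-- Composition of a kernel with itself. -/
noncomputable def DD (μ : Measure X) (k : X → X → ℝ) (x y : X) : ℝ := ∫ z, k x z * k z y ∂μ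

/-- The integral operator. -/
noncomputable def AA (μ : Measure X) (k : X → X → ℝ) (f : X → ℝ) (x : X) : ℝ :=
  ∫ y, k x y * f y ∂μ

variable {μ : Measure X} [IsFiniteMeasure μ]

theorem DD_bd {k : X → X → ℝ} {M : ℝ} (hk : Ker k M) :
    Bd (Function.uncurry fun (p : X × X) z => k p.1 z * k z p.2) (M * M) := by
  have h1 : Bd (fun q : (X × X) × X => Function.uncurry k (q.1.1, q.2)) M :=
    hk.bd.comp (by fun_prop)
  have h2 : Bd (fun q : (X × X) × X => Function.uncurry k (q.2, q.1.2)) M :=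
    hk.bd.comp (by fun_prop)
  exact h1.mul h2

theorem DD_ker {k : X → X → ℝ} {M : ℝ} (hk : Ker k M) :
    Ker (DD μ k) (M * M * μ.real univ) := by
  have h := (DD_bd hk).int (μ := μ)
  refine ⟨h.meas, fun x y => ?_, fun x y => ?_, fun x y => ?_⟩
  · exact integral_nonneg fun z => mul_nonneg (hk.nonneg _ _) (hk.nonneg _ _)
  · exact (le_abs_self _).trans (h.le (x, y))
  · unfold DD
    refine integral_congr_ae (Eventually.of_forall fun z => ?_)
    simp only
    rw [hk.symm x z, hk.symm z y, mul_comm]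

theorem ofReal_DD {k : X → X → ℝ} {M : ℝ} (hk : Ker k M) (x y : X) :
    ENNReal.ofReal (DD μ k x y) =
      ∫⁻ z, ENNReal.ofReal (k x z) * ENNReal.ofReal (k z y) ∂μ := by
  unfold DD
  rw [ofReal_integral_eq_lintegral_ofReal]
  · refine lintegral_congr fun z => ?_
    rw [ENNReal.ofReal_mul (hk.nonneg _ _)]
  · exact ((DD_bd hk).comp (g := fun z : X => ((x, y), z)) (by fun_prop)).integrable
  · exact Eventually.of_forall fun z => mul_nonneg (hk.nonneg _ _) (hk.nonneg _ _)

theorem AA_bd {k : X → X → ℝ} {M : ℝ} (hk : Ker k M) {f : X → ℝ} {C : ℝ} (hf : Bd f C) :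
    Bd (AA μ k f) (M * C * μ.real univ) := by
  have h1 : Bd (fun q : X × X => Function.uncurry k q) M := hk.bd
  have h2 : Bd (fun q : X × X => f q.2) C := hf.comp (by fun_prop)
  exact (h1.mul h2).int (f := fun x y => k x y * f y)

theorem AA_symm {k : X → X → ℝ} {M : ℝ} (hk : Ker k M) {f g : X → ℝ} {C C' : ℝ} (hf : Bd f C)
    (hg : Bd g C') : ∫ x, f x * AA μ k g x ∂μ = ∫ x, g x * AA μ k f x ∂μ := by
  have h1 : Bd (Function.uncurry fun x y => f x * (k x y * g y)) (C * (M * C')) := by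
    have a1 : Bd (fun q : X × X => f q.1) C := hf.comp (by fun_prop)
    have a2 : Bd (fun q : X × X => g q.2) C' := hg.comp (by fun_prop)
    have a3 : Bd (fun q : X × X => Function.uncurry k q) M := hk.bd
    exact a1.mul (a3.mul a2)
  have e1 : ∀ x, f x * AA μ k g x = ∫ y, f x * (k x y * g y) ∂μ := fun x => by
    rw [integral_const_mul]; rfl
  have e2 : ∀ y, g y * AA μ k f y = ∫ x, f x * (k x y * g y) ∂μ := fun y => by
    unfold AA
    rw [← integral_const_mul]
    refine integral_congr_ae (Eventually.of_forall fun x => ?_)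
    simp only
    rw [hk.symm y x]; ring
  simp only [e1, e2]
  exact integral_integral_swap h1.integrable

theorem AA_DD {k : X → X → ℝ} {M : ℝ} (hk : Ker k M) {f : X → ℝ} {C : ℝ} (hf : Bd f C) (x : X) :
    AA μ (DD μ k) f x = AA μ k (AA μ k f) x := by
  have h1 : Bd (Function.uncurry fun y z => k x z * k z y * f y) (M * M * C) := by
    have a1 : Bd (fun q : X × X => Function.uncurry k (x, q.2)) M := hk.bd.comp (by fun_prop)
    have a2 : Bd (fun q : X × X => Function.uncurry k (q.2, q.1)) M := hk.bd.comp (by fun_prop)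
    have a3 : Bd (fun q : X × X => f q.1) C := hf.comp (by fun_prop)
    exact (a1.mul a2).mul a3
  have e1 : ∀ y, DD μ k x y * f y = ∫ z, k x z * k z y * f y ∂μ := fun y => by
    rw [integral_mul_const]; rfl
  have e2 : ∀ z, k x z * AA μ k f z = ∫ y, k x z * k z y * f y ∂μ := fun z => by
    unfold AA
    rw [← integral_const_mul]
    refine integral_congr_ae (Eventually.of_forall fun y => ?_)
    simp only
    ring
  show ∫ y, DD μ k x y * f y ∂μ = ∫ z, k x z * AA μ k f z ∂μ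
  simp only [e1, e2]
  exact integral_integral_swap h1.integrable

theorem AA_sq {k : X → X → ℝ} {M : ℝ} (hk : Ker k M) {f : X → ℝ} {C : ℝ} (hf : Bd f C) :
    ∫ x, f x * AA μ (DD μ k) f x ∂μ = ∫ x, AA μ k f x ^ 2 ∂μ := by
  simp only [AA_DD hk hf]
  rw [AA_symm hk hf (AA_bd hk hf)]
  simp only [sq]

theorem cs_sum {n : ℕ} {k : X → X → ℝ} {M : ℝ} (hk : Ker k M) {f : Fin n → X → ℝ} {C : ℝ}
    (hf : ∀ i, Bd (f i) C) :
    (∑ i, ∫ x, f i x * AA μ k (f i) x ∂μ) ^ 2 ≤
      (∑ i, ∫ x, f i x ^ 2 ∂μ) * ∑ i, ∫ x, AA μ k (f i) x ^ 2 ∂μ := by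
  have hA : ∀ i, Bd (AA μ k (f i)) (M * C * μ.real univ) := fun i => AA_bd hk (hf i)
  have i1 : ∀ i, Integrable (fun x => f i x ^ 2) μ := fun i => by
    simpa only [sq] using ((hf i).mul (hf i)).integrable (μ := μ)
  have i2 : ∀ i, Integrable (fun x => AA μ k (f i) x ^ 2) μ := fun i => by
    simpa only [sq] using ((hA i).mul (hA i)).integrable (μ := μ)
  have i3 : ∀ i, Integrable (fun x => f i x * AA μ k (f i) x) μ := fun i =>
    ((hf i).mul (hA i)).integrable (μ := μ)
  have key : ∀ t : ℝ, 0 ≤ (∑ i, ∫ x, AA μ k (f i) x ^ 2 ∂μ) * (t * t) +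
      (2 * ∑ i, ∫ x, f i x * AA μ k (f i) x ∂μ) * t + ∑ i, ∫ x, f i x ^ 2 ∂μ := by
    intro t
    have h : 0 ≤ ∑ i, ∫ x, (t * AA μ k (f i) x + f i x) ^ 2 ∂μ :=
      Finset.sum_nonneg fun i _ => integral_nonneg fun x => sq_nonneg _
    refine h.trans (le_of_eq ?_)
    rw [Finset.mul_sum, Finset.sum_mul, Finset.sum_mul, ← Finset.sum_add_distrib,
      ← Finset.sum_add_distrib]
    refine Finset.sum_congr rfl fun i _ => ?_
    have : ∀ x, (t * AA μ k (f i) x + f i x) ^ 2 =
        t * t * AA μ k (f i) x ^ 2 + 2 * t * (f i x * AA μ k (f i) x) + f i x ^ 2 := by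
      intro x; ring
    simp only [this]
    have a1 : Integrable (fun x => t * t * AA μ k (f i) x ^ 2) μ := (i2 i).const_mul _
    have a2 : Integrable (fun x => 2 * t * (f i x * AA μ k (f i) x)) μ := (i3 i).const_mul _
    have a3 : Integrable (fun x => t * t * AA μ k (f i) x ^ 2 +
      2 * t * (f i x * AA μ k (f i) x)) μ := a1.add a2
    rw [integral_add a3 (i1 i), integral_add a1 a2, integral_const_mul, integral_const_mul]
    ring
  have hd := discrim_le_zero key
  unfold discrim at hd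
  nlinarith [hd]

theorem bessel {n : ℕ} {k : X → X → ℝ} {M : ℝ} (hk : Ker k M) {f : Fin n → X → ℝ} {C : ℝ}
    (hf : ∀ i, Bd (f i) C)
    (hG : ∀ v : Fin n → ℝ, ∫ x, (∑ i, v i * f i x) ^ 2 ∂μ ≤ ∑ i, v i ^ 2) :
    ∑ i, ∫ x, AA μ k (f i) x ^ 2 ∂μ ≤ ∫ x, DD μ k x x ∂μ := by
  have hA : ∀ i, Bd (AA μ k (f i)) (M * C * μ.real univ) := fun i => AA_bd hk (hf i)
  have i2 : ∀ i, Integrable (fun x => AA μ k (f i) x ^ 2) μ := fun i => by
    simpa only [sq] using ((hA i).mul (hA i)).integrable (μ := μ)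
  rw [← integral_finsetSum _ fun i _ => i2 i]
  have hD : Bd (fun x => Function.uncurry (DD μ k) (x, x)) (M * M * μ.real univ) :=
    (DD_ker (μ := μ) hk).bd.comp (by fun_prop)
  refine integral_mono (integrable_finsetSum _ fun i _ => i2 i) hD.integrable fun z => ?_
  show ∑ i, AA μ k (f i) z ^ 2 ≤ DD μ k z z
  set w : Fin n → ℝ := fun i => AA μ k (f i) z with hw
  have hkz : Bd (fun y => Function.uncurry k (z, y)) M := hk.bd.comp (by fun_prop)
  have j1 : Integrable (fun y => k z y * k z y) μ := (hkz.mul hkz).integrable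
  have j2 : ∀ i, Integrable (fun y => w i * (k z y * f i y)) μ := fun i =>
    ((hkz.mul (hf i)).integrable (μ := μ)).const_mul _
  have hS : Bd (fun y => ∑ i, w i * f i y) (∑ i, |w i| * C) := by
    refine ⟨Finset.measurable_sum _ fun i _ => (hf i).meas.const_mul _, fun x => ?_⟩
    refine (Finset.abs_sum_le_sum_abs _ _).trans (Finset.sum_le_sum fun i _ => ?_)
    rw [abs_mul]
    exact mul_le_mul_of_nonneg_left ((hf i).le x) (abs_nonneg _)
  have j3 : Integrable (fun y => (∑ i, w i * f i y) ^ 2) μ := by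
    simpa only [sq] using (hS.mul hS).integrable (μ := μ)
  have h0 : 0 ≤ ∫ y, (k z y - ∑ i, w i * f i y) ^ 2 ∂μ := integral_nonneg fun y => sq_nonneg _
  have e1 : ∀ y, (k z y - ∑ i, w i * f i y) ^ 2 =
      k z y * k z y - 2 * ∑ i, w i * (k z y * f i y) + (∑ i, w i * f i y) ^ 2 := by
    intro y
    have : ∑ i, w i * (k z y * f i y) = k z y * ∑ i, w i * f i y := by
      rw [Finset.mul_sum]
      exact Finset.sum_congr rfl fun i _ => by ring
    rw [this]; ring
  simp only [e1] at h0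
  have j4 : Integrable (fun y => 2 * ∑ i, w i * (k z y * f i y)) μ :=
    (integrable_finsetSum _ fun i _ => j2 i).const_mul _
  have j5 : Integrable (fun y => k z y * k z y - 2 * ∑ i, w i * (k z y * f i y)) μ := j1.sub j4
  rw [integral_add j5 j3, integral_sub j1 j4, integral_const_mul,
    integral_finsetSum _ fun i _ => j2 i] at h0
  have e2 : ∀ i, ∫ y, w i * (k z y * f i y) ∂μ = w i ^ 2 := fun i => by
    rw [integral_const_mul, sq]; rfl
  simp only [e2] at h0
  have e3 : ∫ y, k z y * k z y ∂μ = DD μ k z z := by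
    unfold DD
    refine integral_congr_ae (Eventually.of_forall fun y => ?_)
    simp only
    rw [hk.symm y z]
  rw [e3] at h0
  have := hG w
  linarith

/-- The `2^(l+1)`-th moment. -/
theorem moment {n : ℕ} (l : ℕ) : ∀ (k : X → X → ℝ) (M : ℝ) (_ : Ker k M) (f : Fin n → X → ℝ)
    (C : ℝ) (_ : ∀ i, Bd (f i) C)
    (_ : ∀ v : Fin n → ℝ, ∫ x, (∑ i, v i * f i x) ^ 2 ∂μ ≤ ∑ i, v i ^ 2),
    ENNReal.ofReal ((∑ i, ∫ x, f i x * AA μ k (f i) x ∂μ) ^ (2 ^ (l + 1))) ≤
      ENNReal.ofReal ((∑ i, ∫ x, f i x ^ 2 ∂μ) ^ (2 ^ (l + 1) - 1)) *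
        T (l + 1) X _ μ (fun _ => 1) (fun x y => ENNReal.ofReal (k x y)) := by
  induction l with
  | zero =>
    intro k M hk f C hf hG
    have h1 := cs_sum (μ := μ) hk hf
    have h2 := bessel (μ := μ) hk hf hG
    have hL : 0 ≤ ∑ i, ∫ x, f i x ^ 2 ∂μ :=
      Finset.sum_nonneg fun i _ => integral_nonneg fun x => sq_nonneg _
    have hm : Measurable (Function.uncurry fun x y => ENNReal.ofReal (k x y)) :=
      hk.meas.ennreal_ofReal
    rw [T_sq 0 X _ μ _ hm]
    simp only [T, one_mul]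
    have e : ∫⁻ x, ∫⁻ z, ENNReal.ofReal (k x z) * ENNReal.ofReal (k z x) ∂μ ∂μ =
        ENNReal.ofReal (∫ x, DD μ k x x ∂μ) := by
      rw [ofReal_integral_eq_lintegral_ofReal]
      · exact lintegral_congr fun x => (ofReal_DD hk x x).symm
      · have hD : Bd (fun x => Function.uncurry (DD μ k) (x, x)) (M * M * μ.real univ) :=
          (DD_ker (μ := μ) hk).bd.comp (by fun_prop)
        exact hD.integrable
      · exact Eventually.of_forall fun x => (DD_ker (μ := μ) hk).nonneg x x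
    rw [e, ← ENNReal.ofReal_mul (by simpa using hL)]
    apply ENNReal.ofReal_le_ofReal
    simp only [zero_add, pow_one]
    norm_num
    exact h1.trans (mul_le_mul_of_nonneg_left h2 hL)
  | succ l ih =>
    intro k M hk f C hf hG
    have h1 := cs_sum (μ := μ) hk hf
    have hL : 0 ≤ ∑ i, ∫ x, f i x ^ 2 ∂μ :=
      Finset.sum_nonneg fun i _ => integral_nonneg fun x => sq_nonneg _
    have hm : Measurable (Function.uncurry fun x y => ENNReal.ofReal (k x y)) :=
      hk.meas.ennreal_ofReal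
    have h3 := ih (DD μ k) _ (DD_ker hk) f C hf hG
    simp only [AA_sq hk (hf _)] at h3
    rw [T_sq (l + 1) X _ μ _ hm]
    have e : (fun x y => ∫⁻ z, ENNReal.ofReal (k x z) * ENNReal.ofReal (k z y) ∂μ) =
        fun x y => ENNReal.ofReal (DD μ k x y) := by
      funext x y
      exact (ofReal_DD hk x y).symm
    rw [e]
    have hp : (∑ i, ∫ x, f i x * AA μ k (f i) x ∂μ) ^ (2 ^ (l + 1 + 1)) ≤
        (∑ i, ∫ x, f i x ^ 2 ∂μ) ^ (2 ^ (l + 1)) *
          (∑ i, ∫ x, AA μ k (f i) x ^ 2 ∂μ) ^ (2 ^ (l + 1)) := by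
      rw [pow_succ 2 (l + 1), mul_comm (2 ^ (l + 1)) 2, pow_mul, ← mul_pow]
      exact pow_le_pow_left₀ (sq_nonneg _) h1 _
    have hx : (2:ℕ) ^ (l + 1 + 1) - 1 = 2 ^ (l + 1) + (2 ^ (l + 1) - 1) := by
      have : 1 ≤ 2 ^ (l + 1) := Nat.one_le_two_pow
      rw [pow_succ 2 (l + 1)]
      omega
    refine (ENNReal.ofReal_le_ofReal hp).trans ?_
    rw [ENNReal.ofReal_mul (pow_nonneg hL _), hx, pow_add (∑ i, ∫ x, f i x ^ 2 ∂μ),
      ENNReal.ofReal_mul (pow_nonneg hL _), mul_assoc]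
    gcongr

end Pool.Agent.L7h99.LS
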