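import Pool.Agent.L7h99.LS.Form
import Pool.Agent.L7h99.LS.GT

set_option autoImplicit false

/-!
# The estimate on one level window
-/

open MeasureTheory Set Filter Topology Real
open scoped ENNReal

namespace Pool.Agent.L7h99.LS

variable {d : ℕ}

theorem log_pow_sqrt {y : ℝ} (hy : 0 < y) (d : ℕ) :
    Real.log (((√y)⁻¹) ^ d) = -((d : ℝ) / 2 * Real.log y) := by
  rw [Real.log_pow, Real.log_inv, Real.log_sqrt hy.le]
  ring

theorem win0 (hS : P_SEMI) (hL : P_LOW) (s : ℝ) (hs : 0 < s) (h : (Fin d → ℝ) → ℝ)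
    (hh : ContDiff ℝ 1 h) (H : ℝ) (hH : ∀ x, |h x| ≤ H) (Ω : Set (Fin d → ℝ))
    (hΩ : volume Ω ≠ ∞) (n : ℕ) (f : Fin n → (Fin d → ℝ) → ℝ)
    (hf : ∀ i, ContDiff ℝ 1 (f i)) (hfc : ∀ i, HasCompactSupport (f i))
    (hf0 : ∀ i, ∀ x ∉ Ω, f i x = 0)
    (hG : ∀ v : Fin n → ℝ, ∫ x, (∑ i, v i * f i x) ^ 2 ≤ ∑ i, v i ^ 2)
    (hΛ : 0 < ∫ x, ∑ i, f i x ^ 2) (j : ℕ) :
    0 < (volume Ω).toReal ∧
    (∫ x, h x * ∑ i, f i x ^ 2) + (∫ x, ∑ i, f i x ^ 2) - (∫ x in Ω, Real.exp (h x)) +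
      (∫ x, ∑ i, f i x ^ 2) * ((d : ℝ) / 2 * Real.log (4 * π * s) +
        ((d : ℝ) / 2 * Real.log (4 * π * (2 ^ j * (s / 4))) - Real.log (volume Ω).toReal) /
          2 ^ j) ≤
      s * ∫ x, ∑ k, ∑ i, LTd.pd k (f i) x ^ 2 := by
  have hv0 : volume Ω ≠ 0 := by
    intro h0
    have : ∫ x, ∑ i, f i x ^ 2 = 0 := by
      rw [← setIntegral_eq_integral_of_forall_compl_eq_zero (s := Ω)
        (fun x hx => by simp [hf0 _ x hx]), Measure.restrict_eq_zero.2 h0]
      simp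
    linarith
  have hv : 0 < (volume Ω).toReal := ENNReal.toReal_pos hv0 hΩ
  refine ⟨hv, ?_⟩
  have : IsFiniteMeasure (volume.restrict Ω) := ⟨by
    rw [Measure.restrict_apply_univ]; exact lt_of_le_of_ne le_top hΩ⟩
  have hei : Integrable (fun x => Real.exp (h x)) (volume.restrict Ω) := by
    refine Integrable.of_bound (hh.continuous.rexp).measurable.aestronglyMeasurable
      (Real.exp H) (Eventually.of_forall fun x => ?_)
    rw [Real.norm_eq_abs, abs_of_pos (Real.exp_pos _)]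
    exact Real.exp_le_exp.2 ((le_abs_self _).trans (hH x))
  set Q := ∫ x in Ω, Real.exp (h x) with hQd
  have hQ0 : 0 < Q := by
    have h1 : ∫ x in Ω, Real.exp (-H) ≤ Q := by
      refine integral_mono (integrable_const _) hei fun x => ?_
      exact Real.exp_le_exp.2 (neg_le_of_abs_le (hH x))
    rw [setIntegral_const, smul_eq_mul] at h1
    have h2 : 0 < volume.real Ω * Real.exp (-H) := mul_pos hv (Real.exp_pos _)
    linarith
  have hQ : ∫⁻ x in Ω, ENNReal.ofReal (Real.exp (h x)) = ENNReal.ofReal Q := by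
    rw [hQd, ofReal_integral_eq_lintegral_ofReal hei
      (Eventually.of_forall fun x => (Real.exp_pos _).le)]
  set c1 : ℝ := ((√(4 * π * s))⁻¹) ^ d with hc1
  set c2 : ℝ := ((√(4 * π * (2 ^ j * (s / 4))))⁻¹) ^ d with hc2
  set v : ℝ := (volume Ω).toReal with hvd
  have hc10 : 0 < c1 := by positivity
  have hc20 : 0 < c2 := by positivity
  have hVv : volume Ω = ENNReal.ofReal v := (ENNReal.ofReal_toReal hΩ).symm
  have hT := T_one hS Ω hs j hh.continuous.measurable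
  rw [hQ, ← hc1, ← hc2, hVv, ← ENNReal.ofReal_mul hc20.le,
    ENNReal.ofReal_rpow_of_pos (mul_pos hc20 hv), ← ENNReal.ofReal_mul hQ0.le,
    ← ENNReal.ofReal_mul hc10.le] at hT
  have hZ0 : 0 < c1 * (Q * (c2 * v) ^ (((2:ℝ) ^ j)⁻¹)) := by positivity
  have key := gt hS hL s hs h hh H hH Ω hΩ n f hf hfc hf0 hG hΛ _ hZ0 hT
  have hlog : Real.log (c1 * (Q * (c2 * v) ^ (((2:ℝ) ^ j)⁻¹))) =
      -((d : ℝ) / 2 * Real.log (4 * π * s)) + (Real.log Q + ((2:ℝ) ^ j)⁻¹ *
        (-((d : ℝ) / 2 * Real.log (4 * π * (2 ^ j * (s / 4)))) + Real.log v)) := by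
    rw [Real.log_mul hc10.ne' (by positivity), Real.log_mul hQ0.ne' (by positivity),
      Real.log_rpow (by positivity), Real.log_mul hc20.ne' hv.ne', hc1, hc2,
      log_pow_sqrt (by positivity), log_pow_sqrt (by positivity)]
  rw [hlog] at key
  set Λ := ∫ x, ∑ i, f i x ^ 2
  have hx : Λ - Q ≤ Λ * (Real.log Λ - Real.log Q) := by
    have h1 := Real.log_le_sub_one_of_pos (x := Q / Λ) (by positivity)
    rw [Real.log_div hQ0.ne' hΛ.ne'] at h1
    have h2 := mul_le_mul_of_nonneg_left h1 hΛ.le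
    have h3 : Λ * (Q / Λ - 1) = Q - Λ := by field_simp
    rw [h3] at h2
    nlinarith
  have e : Λ * ((d : ℝ) / 2 * Real.log (4 * π * s) +
        ((d : ℝ) / 2 * Real.log (4 * π * (2 ^ j * (s / 4))) - Real.log v) / 2 ^ j) =
      Λ * (Real.log Λ - (-((d : ℝ) / 2 * Real.log (4 * π * s)) + (Real.log Q + ((2:ℝ) ^ j)⁻¹ *
        (-((d : ℝ) / 2 * Real.log (4 * π * (2 ^ j * (s / 4)))) + Real.log v)))) -
      Λ * (Real.log Λ - Real.log Q) := by
    rw [div_eq_mul_inv]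
    ring
  rw [e]
  linarith

theorem win (hS : P_SEMI) (hL : P_LOW) (hd : 4 ≤ d) (h : (Fin d → ℝ) → ℝ)
    (hh : ContDiff ℝ 1 h) (H : ℝ) (hH : ∀ x, |h x| ≤ H) (Ω : Set (Fin d → ℝ))
    (hΩm : MeasurableSet Ω)
    (hΩ : volume Ω ≠ ∞) (n : ℕ) (f : Fin n → (Fin d → ℝ) → ℝ)
    (hf : ∀ i, ContDiff ℝ 1 (f i)) (hfc : ∀ i, HasCompactSupport (f i))
    (hf0 : ∀ i, ∀ x ∉ Ω, f i x = 0)
    (hG : ∀ v : Fin n → ℝ, ∫ x, (∑ i, v i * f i x) ^ 2 ≤ ∑ i, v i ^ 2)
    (lam N₀ ε : ℝ) (j : ℕ) (hlam : ∀ x ∈ Ω, |h x - lam| ≤ √d) (hN0 : 0 < N₀)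
    (hN : ∫ x in Ω, Real.exp (h x) ≤ N₀) (hε : 0 ≤ ε)
    (hΓ : 6 + 3 / 2 * d * ε ≤
      ((d : ℝ) / 2 * Real.log (2 ^ j * Real.exp 1 / 4) - Real.log N₀ - √d) / 2 ^ j) :
    2 * π * d / Real.exp 1 * (1 + ε) * (∫ x, Real.exp (2 / d * h x) * ∑ i, f i x ^ 2) +
      4 * π / Real.exp 1 * Real.exp (2 / d * lam) *
        (5 * (∫ x, ∑ i, f i x ^ 2) - ∫ x in Ω, Real.exp (h x)) ≤
      ∫ x, ∑ k, ∑ i, LTd.pd k (f i) x ^ 2 := by
  have hd0 : (0:ℝ) < d := by positivity
  have hd4 : (4:ℝ) ≤ d := by exact_mod_cast hd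
  have hρc : Continuous fun x => ∑ i, f i x ^ 2 :=
    continuous_finsetSum _ fun i _ => (hf i).continuous.pow 2
  have hρs : HasCompactSupport fun x => ∑ i, f i x ^ 2 := by
    refine HasCompactSupport.intro (K := ⋃ i, tsupport (f i))
      (isCompact_iUnion fun i => hfc i) fun x hx => ?_
    refine Finset.sum_eq_zero fun i _ => ?_
    have : x ∉ tsupport (f i) := fun hx' => hx (mem_iUnion.2 ⟨i, hx'⟩)
    rw [image_eq_zero_of_notMem_tsupport this]; simp
  have hρ0 : ∀ x, 0 ≤ ∑ i, f i x ^ 2 := fun x => Finset.sum_nonneg fun i _ => sq_nonneg _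
  have hρi : Integrable fun x => ∑ i, f i x ^ 2 := hρc.integrable_of_hasCompactSupport hρs
  have hρn : ∀ x ∉ Ω, ∑ i, f i x ^ 2 = 0 := fun x hx => by simp [hf0 _ x hx]
  have hgi : ∀ g : (Fin d → ℝ) → ℝ, Continuous g → Integrable fun x => g x * ∑ i, f i x ^ 2 :=
    fun g hg => (hg.mul hρc).integrable_of_hasCompactSupport hρs.mul_left
  have hT0 : 0 ≤ ∫ x, ∑ k, ∑ i, LTd.pd k (f i) x ^ 2 := integral_nonneg fun x =>
    Finset.sum_nonneg fun k _ => Finset.sum_nonneg fun i _ => sq_nonneg _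
  have hQ0 : 0 ≤ ∫ x in Ω, Real.exp (h x) := integral_nonneg fun x => (Real.exp_pos _).le
  have hhc := hh.continuous
  have hΛ0 : 0 ≤ ∫ x, ∑ i, f i x ^ 2 := integral_nonneg hρ0
  rcases hΛ0.lt_or_eq with hΛ | hΛ
  swap
  · -- degenerate case
    have h1 : (fun x => ∑ i, f i x ^ 2) =ᵐ[volume] 0 :=
      (integral_eq_zero_iff_of_nonneg hρ0 hρi).1 hΛ.symm
    have h2 : ∫ x, Real.exp (2 / d * h x) * ∑ i, f i x ^ 2 = 0 := by
      rw [← integral_zero (Fin d → ℝ) ℝ (μ := volume)]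
      refine integral_congr_ae ?_
      filter_upwards [h1] with x hx
      simp only [Pi.zero_apply] at hx
      rw [hx, mul_zero]
    rw [h2, ← hΛ]
    have h3 : 0 ≤ 4 * π / Real.exp 1 * Real.exp (2 / d * lam) *
        ∫ x in Ω, Real.exp (h x) := by positivity
    linarith
  set s : ℝ := Real.exp 1 / (4 * π) * Real.exp (-(2 / d * lam)) with hs
  have hs0 : 0 < s := by positivity
  obtain ⟨hv, key⟩ := win0 hS hL s hs0 h hh H hH Ω hΩ n f hf hfc hf0 hG hΛ j
  have hlog1 : Real.log (4 * π * s) = 1 - 2 / d * lam := by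
    have : 4 * π * s = Real.exp (1 - 2 / d * lam) := by
      rw [hs, sub_eq_add_neg, Real.exp_add]
      field_simp
    rw [this, Real.log_exp]
  have hlog2 : Real.log (4 * π * (2 ^ j * (s / 4))) =
      Real.log (2 ^ j * Real.exp 1 / 4) - 2 / d * lam := by
    have : 4 * π * (2 ^ j * (s / 4)) =
        (2 ^ j * Real.exp 1 / 4) * Real.exp (-(2 / d * lam)) := by
      rw [hs]
      field_simp
    rw [this, Real.log_mul (by positivity) (by positivity), Real.log_exp]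
    ring
  rw [hlog1, hlog2] at key
  -- the volume
  have hfin : IsFiniteMeasure (volume.restrict Ω) := ⟨by
    rw [Measure.restrict_apply_univ]; exact lt_of_le_of_ne le_top hΩ⟩
  have hei : Integrable (fun x => Real.exp (h x)) (volume.restrict Ω) := by
    refine Integrable.of_bound (hh.continuous.rexp).measurable.aestronglyMeasurable
      (Real.exp H) (Eventually.of_forall fun x => ?_)
    rw [Real.norm_eq_abs, abs_of_pos (Real.exp_pos _)]
    exact Real.exp_le_exp.2 ((le_abs_self _).trans (hH x))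
  have hvol : lam + Real.log (volume Ω).toReal ≤ Real.log N₀ + √d := by
    have h1 : ∫ x in Ω, Real.exp (lam - √d) ≤ ∫ x in Ω, Real.exp (h x) := by
      refine setIntegral_mono_on (integrable_const _) hei hΩm fun x hx => ?_
      have := neg_le_of_abs_le (hlam x hx)
      exact Real.exp_le_exp.2 (by linarith)
    rw [setIntegral_const, smul_eq_mul] at h1
    have h2 : (volume Ω).toReal * Real.exp (lam - √d) ≤ N₀ := h1.trans hN
    have h3 := Real.log_le_log (by positivity) h2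
    rw [Real.log_mul hv.ne' (Real.exp_pos _).ne', Real.log_exp] at h3
    linarith
  set Λ := ∫ x, ∑ i, f i x ^ 2 with hΛd
  set Q := ∫ x in Ω, Real.exp (h x)
  set Tf := ∫ x, ∑ k, ∑ i, LTd.pd k (f i) x ^ 2
  set Γ := ((d : ℝ) / 2 * Real.log (2 ^ j * Real.exp 1 / 4) - Real.log N₀ - √d) / 2 ^ j with hΓd
  -- gain
  have hgain : Γ ≤ ((d : ℝ) / 2 * (Real.log (2 ^ j * Real.exp 1 / 4) - 2 / d * lam) -
      Real.log (volume Ω).toReal) / 2 ^ j := by
    rw [hΓd]
    refine div_le_div_of_nonneg_right ?_ (by positivity)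
    have : (d : ℝ) / 2 * (Real.log (2 ^ j * Real.exp 1 / 4) - 2 / d * lam) =
        (d : ℝ) / 2 * Real.log (2 ^ j * Real.exp 1 / 4) - lam := by
      field_simp
    rw [this]
    linarith
  have e0 : (d : ℝ) / 2 * (1 - 2 / d * lam) = d / 2 - lam := by field_simp
  rw [e0] at key
  -- the potential part
  have hI : ∫ x, (h x - lam) * ∑ i, f i x ^ 2 = (∫ x, h x * ∑ i, f i x ^ 2) - lam * Λ := by
    have e1 : ∀ x, (h x - lam) * ∑ i, f i x ^ 2 =
        h x * (∑ i, f i x ^ 2) - lam * ∑ i, f i x ^ 2 := fun x => by ring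
    simp only [e1]
    rw [integral_sub (hgi h hhc) (hρi.const_mul _), integral_const_mul]
  have key2 : (∫ x, (h x - lam) * ∑ i, f i x ^ 2) + Λ * (1 + d / 2 + Γ) - Q ≤ s * Tf := by
    have := mul_le_mul_of_nonneg_left hgain hΛ.le
    rw [hI]
    nlinarith
  -- the target
  have hexpi : Integrable fun x => Real.exp (2 / d * (h x - lam)) * ∑ i, f i x ^ 2 :=
    hgi _ (by fun_prop)
  have hvle : ∀ x ∈ Ω, |2 / d * (h x - lam)| ≤ 2 * √d / d := fun x hx => by
    rw [abs_mul, abs_of_pos (by positivity : (0:ℝ) < 2 / d)]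
    calc 2 / (d:ℝ) * |h x - lam| ≤ 2 / d * √d := by
          exact mul_le_mul_of_nonneg_left (hlam x hx) (by positivity)
      _ = _ := by ring
  have hsq : √(d:ℝ) * √d = d := Real.mul_self_sqrt hd0.le
  have hsd : 2 ≤ √(d:ℝ) := by
    rw [show (2:ℝ) = √4 by rw [show (4:ℝ) = 2 ^ 2 by norm_num, Real.sqrt_sq (by norm_num)]]
    exact Real.sqrt_le_sqrt hd4
  have hv1 : 2 * √(d:ℝ) / d ≤ 1 := by
    rw [div_le_one hd0]
    nlinarith
  have hexp3 : Real.exp 1 ≤ 3 := by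
    have := Real.exp_one_lt_d9
    linarith
  have t1 : ∫ x, Real.exp (2 / d * (h x - lam)) * ∑ i, f i x ^ 2 ≤
      Λ + 2 / d * (∫ x, (h x - lam) * ∑ i, f i x ^ 2) + 4 / d * Λ := by
    rw [hΛd, ← integral_const_mul, ← integral_const_mul]
    have a1 : Integrable fun x => 2 / d * ((h x - lam) * ∑ i, f i x ^ 2) :=
      (hgi _ (by fun_prop)).const_mul _
    have a2 : Integrable fun x => 4 / d * ∑ i, f i x ^ 2 := hρi.const_mul _
    have a3 : Integrable fun x => (∑ i, f i x ^ 2) + 2 / d * ((h x - lam) * ∑ i, f i x ^ 2) :=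
      hρi.add a1
    rw [← integral_add hρi a1, ← integral_add a3 a2]
    refine integral_mono hexpi (a3.add a2) fun x => ?_
    show Real.exp (2 / d * (h x - lam)) * ∑ i, f i x ^ 2 ≤
      (∑ i, f i x ^ 2) + 2 / d * ((h x - lam) * ∑ i, f i x ^ 2) + 4 / d * ∑ i, f i x ^ 2
    by_cases hx : x ∈ Ω
    · have hb := hvle x hx
      have h1 := Real.abs_exp_sub_one_sub_id_le (x := 2 / d * (h x - lam)) (hb.trans hv1)
      have h2 : (2 / d * (h x - lam)) ^ 2 ≤ 4 / d := by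
        rw [← sq_abs]
        calc |2 / d * (h x - lam)| ^ 2 ≤ (2 * √d / d) ^ 2 := pow_le_pow_left₀ (abs_nonneg _) hb 2
          _ = 4 * (√d * √d) / d ^ 2 := by ring
          _ = 4 / d := by rw [hsq]; field_simp
      have h3 : Real.exp (2 / d * (h x - lam)) ≤ 1 + 2 / d * (h x - lam) + 4 / d := by
        have := (le_abs_self _).trans h1
        linarith
      calc _ ≤ (1 + 2 / d * (h x - lam) + 4 / d) * ∑ i, f i x ^ 2 :=
            mul_le_mul_of_nonneg_right h3 (hρ0 x)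
        _ = _ := by ring
    · rw [hρn x hx]; simp
  have t2 : ∫ x, Real.exp (2 / d * (h x - lam)) * ∑ i, f i x ^ 2 ≤ 3 * Λ := by
    rw [hΛd, ← integral_const_mul]
    refine integral_mono hexpi (hρi.const_mul _) fun x => ?_
    show Real.exp (2 / d * (h x - lam)) * ∑ i, f i x ^ 2 ≤ 3 * ∑ i, f i x ^ 2
    by_cases hx : x ∈ Ω
    · refine mul_le_mul_of_nonneg_right (le_trans (Real.exp_le_exp.2 ?_) hexp3) (hρ0 x)
      exact (le_abs_self _).trans ((hvle x hx).trans hv1)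
    · rw [hρn x hx]; simp
  set P := ∫ x, Real.exp (2 / d * (h x - lam)) * ∑ i, f i x ^ 2 with hP
  have key3 : (d : ℝ) / 2 * (1 + ε) * P + 5 * Λ - Q ≤ s * Tf := by
    have b1 : (d : ℝ) / 2 * P ≤ d / 2 * Λ + (∫ x, (h x - lam) * ∑ i, f i x ^ 2) + 2 * Λ := by
      have := mul_le_mul_of_nonneg_left t1 (by positivity : (0:ℝ) ≤ (d:ℝ) / 2)
      refine this.trans (le_of_eq ?_)
      field_simp
      ring
    have b2 : (d : ℝ) / 2 * ε * P ≤ 3 / 2 * d * ε * Λ := by
      have := mul_le_mul_of_nonneg_left t2 (by positivity : (0:ℝ) ≤ (d:ℝ) / 2 * ε)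
      linarith
    have b3 : Λ * (6 + 3 / 2 * d * ε) ≤ Λ * Γ := mul_le_mul_of_nonneg_left hΓ hΛ.le
    nlinarith
  -- rescale
  have hP2 : ∫ x, Real.exp (2 / d * h x) * ∑ i, f i x ^ 2 = Real.exp (2 / d * lam) * P := by
    rw [hP, ← integral_const_mul]
    refine integral_congr_ae (Eventually.of_forall fun x => ?_)
    simp only
    rw [← mul_assoc, ← Real.exp_add]
    congr 2
    ring
  have hss : 4 * π / Real.exp 1 * Real.exp (2 / d * lam) * s = 1 := by
    have : Real.exp (2 / d * lam) * Real.exp (-(2 / d * lam)) = 1 := by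
      rw [← Real.exp_add]; simp
    rw [hs]
    calc _ = (4 * π / Real.exp 1 * (Real.exp 1 / (4 * π))) *
        (Real.exp (2 / d * lam) * Real.exp (-(2 / d * lam))) := by ring
      _ = 1 := by rw [this]; field_simp
  have hfinal := mul_le_mul_of_nonneg_left key3
    (by positivity : (0:ℝ) ≤ 4 * π / Real.exp 1 * Real.exp (2 / d * lam))
  rw [← mul_assoc _ s Tf, hss, one_mul] at hfinal
  refine le_trans (le_of_eq ?_) hfinal
  rw [hP2]
  ring

end Pool.Agent.L7h99.LS
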